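import Mathlib

/-!
# Symmetric association schemes: invariant relations, intersection numbers, metrics, separated sets
-/

set_option autoImplicit false
set_option linter.unusedSectionVars false

open Finset
open scoped Classical

namespace Pool.Agent.H57.AS

/-- symmetric association scheme; the intersection numbers are given by bijections -/
structure Sc {Ω I : Type} (cl : Ω → Ω → I) : Prop where
  symm : ∀ x y, cl x y = cl y x
  diag : ∀ x y z, cl x x = cl y z → y = z
  homog : ∀ x y, cl x x = cl y y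
  mv : ∀ x y x' y', cl x y = cl x' y' →
    ∃ σ : Ω ≃ Ω, ∀ z, cl x' (σ z) = cl x z ∧ cl (σ z) y' = cl z y

/-- invariant relation: a union of classes -/
def Iv {Ω I : Type} (cl : Ω → Ω → I) (P : Ω → Ω → Prop) : Prop :=
  ∀ x y x' y', cl x y = cl x' y' → P x y → P x' y'

/-- number of the `z` with `P x z` and `Q z y` -/
noncomputable def ct {Ω : Type} [Fintype Ω] (P Q : Ω → Ω → Prop) (x y : Ω) : ℕ :=
  (univ.filter fun z => P x z ∧ Q z y).card

/-- valency -/
noncomputable def dg {Ω : Type} [Fintype Ω] (P : Ω → Ω → Prop) (x : Ω) : ℕ :=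
  (univ.filter fun z => P x z).card

section
variable {Ω I : Type} [Fintype Ω] {cl : Ω → Ω → I} {P Q R X : Ω → Ω → Prop}

theorem Iv.iff (hP : Iv cl P) {x y x' y' : Ω} (h : cl x y = cl x' y') : P x y ↔ P x' y' :=
  ⟨hP _ _ _ _ h, hP _ _ _ _ h.symm⟩

theorem Iv.comm (hP : Iv cl P) (hS : Sc cl) (x y : Ω) : P x y ↔ P y x := hP.iff (hS.symm x y)

theorem Iv.and (hP : Iv cl P) (hQ : Iv cl Q) : Iv cl fun x y => P x y ∧ Q x y :=
  fun _ _ _ _ h h1 => ⟨hP _ _ _ _ h h1.1, hQ _ _ _ _ h h1.2⟩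

theorem Iv.or (hP : Iv cl P) (hQ : Iv cl Q) : Iv cl fun x y => P x y ∨ Q x y :=
  fun _ _ _ _ h h1 => h1.imp (hP _ _ _ _ h) (hQ _ _ _ _ h)

theorem Iv.not (hP : Iv cl P) : Iv cl fun x y => ¬ P x y :=
  fun _ _ _ _ h h1 h2 => h1 (hP _ _ _ _ h.symm h2)

theorem iv_class (k : I) : Iv cl fun x y => cl x y = k := fun _ _ _ _ h h1 => h.symm.trans h1

theorem iv_eq (hS : Sc cl) : Iv cl fun x y => x = y := by
  intro x y x' y' h h1
  subst h1
  exact hS.diag _ _ _ h

theorem ct_inv (hS : Sc cl) (hP : Iv cl P) (hQ : Iv cl Q) {x y x' y' : Ω}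
    (h : cl x y = cl x' y') : ct P Q x y = ct P Q x' y' := by
  have key : ∀ x y x' y' : Ω, cl x y = cl x' y' → ct P Q x y ≤ ct P Q x' y' := by
    intro x y x' y' h
    obtain ⟨σ, hσ⟩ := hS.mv x y x' y' h
    refine card_le_card_of_injOn σ ?_ (σ.injective.injOn)
    intro z hz
    simp only [coe_filter, mem_univ, true_and, Set.mem_ofPred_eq] at hz ⊢
    exact ⟨hP _ _ _ _ (hσ z).1.symm hz.1, hQ _ _ _ _ (hσ z).2.symm hz.2⟩
  exact le_antisymm (key _ _ _ _ h) (key _ _ _ _ h.symm)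

theorem iv_ct (hS : Sc cl) (hP : Iv cl P) (hQ : Iv cl Q) (c : ℝ) :
    Iv cl fun x y => c ≤ (ct P Q x y : ℝ) := by
  intro x y x' y' h h1
  have h2 : c ≤ (ct P Q x y : ℝ) := h1
  rw [ct_inv hS hP hQ h] at h2
  exact h2

theorem ct_symm (hS : Sc cl) (hP : Iv cl P) (hQ : Iv cl Q) (x y : Ω) :
    ct P Q x y = ct P Q y x := ct_inv hS hP hQ (hS.symm x y)

theorem ct_swap (hS : Sc cl) (hP : Iv cl P) (hQ : Iv cl Q) (x y : Ω) :
    ct P Q x y = ct Q P x y := by
  rw [ct_symm hS hQ hP x y]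
  unfold ct
  congr 1
  ext z
  simp only [mem_filter, mem_univ, true_and]
  rw [hP.comm hS x z, hQ.comm hS z y]
  tauto

/-- supports of products commute -/
theorem supp_comm (hS : Sc cl) (hP : Iv cl P) (hQ : Iv cl Q) {x y z : Ω} (h1 : P x z)
    (h2 : Q z y) : ∃ w, Q x w ∧ P w y := by
  have h3 : 0 < ct P Q x y := card_pos.2 ⟨z, by
    rw [mem_filter]; exact ⟨mem_univ _, h1, h2⟩⟩
  rw [ct_swap hS hP hQ] at h3
  obtain ⟨w, hw⟩ := card_pos.1 h3
  rw [mem_filter] at hw
  exact ⟨w, hw.2⟩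

theorem dg_eq (hS : Sc cl) (hP : Iv cl P) (x y : Ω) : dg P x = dg P y := by
  have key : ∀ x y : Ω, dg P x ≤ dg P y := by
    intro x y
    obtain ⟨σ, hσ⟩ := hS.mv x x y y (hS.homog x y)
    refine card_le_card_of_injOn σ ?_ (σ.injective.injOn)
    intro z hz
    simp only [coe_filter, mem_univ, true_and, Set.mem_ofPred_eq] at hz ⊢
    exact hP _ _ _ _ (hσ z).1.symm hz
  exact le_antisymm (key _ _) (key _ _)

/-- every class occurs at every vertex -/
theorem occ (hS : Sc cl) (x y p : Ω) : ∃ q, cl p q = cl x y := by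
  obtain ⟨σ, hσ⟩ := hS.mv x x p p (hS.homog x p)
  exact ⟨σ y, (hσ y).1⟩

theorem ct_le_left (x y : Ω) : ct P Q x y ≤ dg P x := by
  apply card_le_card
  intro z hz
  rw [mem_filter] at hz ⊢
  exact ⟨hz.1, hz.2.1⟩

theorem ct_le_right (hS : Sc cl) (hQ : Iv cl Q) (x y : Ω) : ct P Q x y ≤ dg Q y := by
  apply card_le_card
  intro z hz
  rw [mem_filter] at hz ⊢
  exact ⟨hz.1, (hQ.comm hS _ _).1 hz.2.2⟩

theorem ct_mono {P' Q' : Ω → Ω → Prop} {x y : Ω} (h1 : ∀ z, P x z → P' x z)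
    (h2 : ∀ z, Q z y → Q' z y) : ct P Q x y ≤ ct P' Q' x y := by
  apply card_le_card
  intro z hz
  rw [mem_filter] at hz ⊢
  exact ⟨hz.1, h1 z hz.2.1, h2 z hz.2.2⟩

/-- the number of the `b` with `P p b` and `Q q b` -/
theorem ct_eq' (hS : Sc cl) (hQ : Iv cl Q) (p q : Ω) :
    (univ.filter fun b => P p b ∧ Q q b).card = ct P Q p q := by
  unfold ct
  congr 1
  ext z
  simp only [mem_filter, mem_univ, true_and]
  rw [hQ.comm hS q z]

theorem ct_tri (hS : Sc cl) (hX : Iv cl X) (x y z : Ω) :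
    ct X X x y + ct X X y z ≤ ct X X x z + dg X y := by
  obtain ⟨P, hP⟩ : ∃ P : Finset Ω, P = univ.filter fun w => X x w ∧ X w y := ⟨_, rfl⟩
  obtain ⟨Q, hQ⟩ : ∃ Q : Finset Ω, Q = univ.filter fun w => X y w ∧ X w z := ⟨_, rfl⟩
  have h1 : ct X X x y = P.card := by rw [hP]; rfl
  have h2 : ct X X y z = Q.card := by rw [hQ]; rfl
  have h3 : (P ∩ Q).card ≤ ct X X x z := by
    apply card_le_card
    intro w hw
    rw [mem_inter, hP, hQ, mem_filter, mem_filter] at hw
    rw [mem_filter]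
    exact ⟨mem_univ _, hw.1.2.1, hw.2.2.2⟩
  have h4 : (P ∪ Q).card ≤ dg X y := by
    apply card_le_card
    intro w hw
    rw [mem_union, hP, hQ, mem_filter, mem_filter] at hw
    rw [mem_filter]
    rcases hw with hw | hw
    · exact ⟨mem_univ _, (hX.comm hS _ _).1 hw.2.2⟩
    · exact ⟨mem_univ _, hw.2.1⟩
  have h5 := card_union_add_card_inter P Q
  omega

theorem ct_self (hS : Sc cl) (hX : Iv cl X) (x : Ω) : ct X X x x = dg X x := by
  unfold ct dg
  congr 1
  ext z
  simp only [mem_filter, mem_univ, true_and]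
  rw [hX.comm hS z x]
  tauto

theorem sum_ct (hS : Sc cl) (hQ : Iv cl Q) (x : Ω) :
    ∑ y : Ω, ct P Q x y = dg P x * dg Q x := by
  have h1 : ∀ y : Ω, ct P Q x y = ∑ z ∈ univ.filter fun z => P x z, if Q z y then 1 else 0 := by
    intro y
    unfold ct
    rw [← card_filter, filter_filter]
  simp only [h1]
  rw [sum_comm]
  have h2 : ∀ z ∈ (univ : Finset Ω).filter (fun z => P x z),
      (∑ y : Ω, if Q z y then 1 else 0) = dg Q x := by
    intro z _
    rw [← card_filter]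
    exact dg_eq hS hQ z x
  rw [sum_congr rfl h2, sum_const, smul_eq_mul]
  rfl

/-- the set of popular vertices is small -/
theorem pop_card (hS : Sc cl) (hX : Iv cl X) (c : ℝ) (x : Ω) :
    ((univ.filter fun y => c ≤ (ct X X x y : ℝ)).card : ℝ) * c ≤ (dg X x : ℝ) ^ 2 := by
  have h1 : ((univ.filter fun y => c ≤ (ct X X x y : ℝ)).card : ℝ) * c ≤
      ∑ y ∈ univ.filter fun y => c ≤ (ct X X x y : ℝ), (ct X X x y : ℝ) := by
    rw [← nsmul_eq_mul, ← sum_const]
    apply sum_le_sum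
    intro z hz
    exact (mem_filter.1 hz).2
  refine h1.trans ?_
  have h2 : ∑ y ∈ univ.filter fun y => c ≤ (ct X X x y : ℝ), (ct X X x y : ℝ) ≤
      ∑ y : Ω, (ct X X x y : ℝ) :=
    sum_le_sum_of_subset_of_nonneg (filter_subset _ _) fun _ _ _ => Nat.cast_nonneg _
  refine h2.trans ?_
  have h3 := sum_ct (P := X) hS hX x
  rw [pow_two]
  exact_mod_cast h3.le

/-- triangles at a vertex -/
noncomputable def tp (P Q R : Ω → Ω → Prop) (x : Ω) : ℕ :=
  ∑ s ∈ univ.filter fun s => P x s, ct Q R s x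

theorem tp_eq (hS : Sc cl) (hP : Iv cl P) (hQ : Iv cl Q) (hR : Iv cl R) (x y : Ω) :
    tp P Q R x = tp P Q R y := by
  obtain ⟨σ, hσ⟩ := hS.mv x x y y (hS.homog x y)
  unfold tp
  refine sum_bij (fun s _ => σ s) ?_ ?_ ?_ ?_
  · intro s hs
    rw [mem_filter] at hs ⊢
    exact ⟨mem_univ _, hP _ _ _ _ (hσ s).1.symm hs.2⟩
  · intro s _ s' _ h
    exact σ.injective h
  · intro t ht
    refine ⟨σ.symm t, ?_, by simp⟩
    rw [mem_filter] at ht ⊢
    refine ⟨mem_univ _, hP _ _ _ _ ?_ ht.2⟩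
    have := (hσ (σ.symm t)).1
    rwa [Equiv.apply_symm_apply] at this
  · intro s _
    exact ct_inv hS hQ hR (hσ s).2.symm

theorem tp_rot (hS : Sc cl) (hP : Iv cl P) (hQ : Iv cl Q) (hR : Iv cl R) (x : Ω) :
    tp P Q R x = tp Q R P x := by
  have h1 : ∑ y : Ω, tp P Q R y = ∑ y : Ω, tp Q R P y := by
    have e1 : ∀ (P Q R : Ω → Ω → Prop), ∑ y : Ω, tp P Q R y =
        ∑ y : Ω, ∑ s : Ω, ∑ t : Ω, if P y s ∧ Q s t ∧ R t y then 1 else 0 := by
      intro P Q R
      apply sum_congr rfl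
      intro y _
      unfold tp
      rw [sum_filter]
      apply sum_congr rfl
      intro s _
      by_cases h : P y s
      · rw [if_pos h]
        unfold ct
        rw [card_filter]
        apply sum_congr rfl
        intro t _
        simp [h]
      · rw [if_neg h]
        simp [h]
    rw [e1, e1, sum_comm]
    apply sum_congr rfl
    intro s _
    rw [sum_comm]
    apply sum_congr rfl
    intro t _
    apply sum_congr rfl
    intro y _
    congr 1
    apply propext
    tauto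
  have h2 : ∀ y, tp P Q R y = tp P Q R x := fun y => tp_eq hS hP hQ hR y x
  have h3 : ∀ y, tp Q R P y = tp Q R P x := fun y => tp_eq hS hQ hR hP y x
  rw [sum_congr rfl fun y _ => h2 y, sum_congr rfl fun y _ => h3 y, sum_const, sum_const,
    smul_eq_mul, smul_eq_mul] at h1
  refine Nat.eq_of_mul_eq_mul_left ?_ h1
  exact card_pos.2 ⟨x, mem_univ _⟩

/-- invariant metrics -/
structure Mt (cl : Ω → Ω → I) (ν : Ω → Ω → ℝ) : Prop where
  zero : ∀ x, ν x x = 0
  symm : ∀ x y, ν x y = ν y x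
  tri : ∀ x y z, ν x z ≤ ν x y + ν y z
  inv : ∀ x y x' y', cl x y = cl x' y' → ν x y = ν x' y'

/-- balls -/
def br (ν : Ω → Ω → ℝ) (r : ℝ) : Ω → Ω → Prop := fun x y => ν x y ≤ r

theorem Mt.iv {ν : Ω → Ω → ℝ} (hν : Mt cl ν) (r : ℝ) : Iv cl (br ν r) := by
  intro x y x' y' h h1
  unfold br at h1 ⊢
  rwa [← hν.inv _ _ _ _ h]

/-- the metric given by an invariant relation -/
noncomputable def nm (X : Ω → Ω → Prop) (x y : Ω) : ℝ := 1 - (ct X X x y : ℝ) / dg X x

theorem nm_mt (hS : Sc cl) (hX : Iv cl X) (h0 : ∀ x, 0 < dg X x) : Mt cl (nm X) := by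
  have hpos : ∀ x, (0 : ℝ) < dg X x := fun x => by exact_mod_cast h0 x
  refine ⟨?_, ?_, ?_, ?_⟩
  · intro x
    unfold nm
    rw [ct_self hS hX, div_self (hpos x).ne', sub_self]
  · intro x y
    unfold nm
    rw [ct_symm hS hX hX, dg_eq hS hX x y]
  · intro x y z
    unfold nm
    rw [dg_eq hS hX y x]
    have h1 : (ct X X x y : ℝ) + ct X X y z ≤ ct X X x z + dg X x := by
      rw [dg_eq hS hX x y]
      exact_mod_cast ct_tri hS hX x y z
    have h2 : ((ct X X x y : ℝ) + ct X X y z) / dg X x ≤ (ct X X x z + dg X x) / dg X x :=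
      div_le_div_of_nonneg_right h1 (hpos x).le
    rw [add_div, add_div, div_self (hpos x).ne'] at h2
    linarith
  · intro x y x' y' h
    unfold nm
    rw [ct_inv hS hX hX h, dg_eq hS hX x x']

/-- the trivial metric -/
noncomputable def tn (x y : Ω) : ℝ := if x = y then 0 else 1

theorem tn_mt (hS : Sc cl) : Mt cl (tn : Ω → Ω → ℝ) := by
  refine ⟨fun x => by simp [tn], ?_, ?_, ?_⟩
  · intro x y
    unfold tn
    by_cases h : x = y
    · rw [if_pos h, if_pos h.symm]
    · rw [if_neg h, if_neg fun h1 => h h1.symm]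
  · intro x y z
    unfold tn
    by_cases h1 : x = y
    · subst h1
      simp
    · rw [if_neg h1]
      split_ifs <;> norm_num
  · intro x y x' y' h
    unfold tn
    have h1 := (iv_eq hS).iff h
    simp only [h1]

/-- separated sets -/
theorem sep {ν : Ω → Ω → ℝ} (hν : Mt cl ν) (P Q : Finset Ω) (r c : ℝ)
    (hr : 0 ≤ r) (hc : ∀ z ∈ P, c ≤ ((Q.filter fun x => ν z x ≤ r).card : ℝ)) :
    ∃ Z ⊆ P, (Z.card : ℝ) * c ≤ Q.card ∧ (∀ z ∈ P, ∃ z' ∈ Z, ν z' z ≤ 2 * r) ∧
      ∀ z ∈ Z, ∀ z' ∈ Z, z ≠ z' → 2 * r < ν z z' := by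
  obtain ⟨S, hS⟩ : ∃ S : Finset Ω → Prop, S = fun Z => ∀ z ∈ Z, ∀ z' ∈ Z, z ≠ z' →
      2 * r < ν z z' := ⟨_, rfl⟩
  obtain ⟨Z, hZ, hmax⟩ := Finset.exists_max_image (P.powerset.filter S) Finset.card
    ⟨∅, by
      rw [mem_filter]
      refine ⟨empty_mem_powerset _, ?_⟩
      rw [hS]
      intro u hu
      simp at hu⟩
  rw [mem_filter, mem_powerset] at hZ
  obtain ⟨hZP, hZS⟩ := hZ
  rw [hS] at hZS
  refine ⟨Z, hZP, ?_, ?_, hZS⟩
  · have h1 : ∑ z ∈ Z, c ≤ ∑ z ∈ Z, ((Q.filter fun x => ν z x ≤ r).card : ℝ) :=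
      sum_le_sum fun z hz => hc z (hZP hz)
    rw [sum_const, nsmul_eq_mul] at h1
    refine h1.trans ?_
    have h2 : ∑ z ∈ Z, (Q.filter fun x => ν z x ≤ r).card =
        (Z.biUnion fun z => Q.filter fun x => ν z x ≤ r).card := by
      rw [card_biUnion]
      intro z hz z' hz' hne
      change Disjoint (Q.filter fun x => ν z x ≤ r) (Q.filter fun x => ν z' x ≤ r)
      rw [disjoint_left]
      intro x hx hx'
      rw [mem_filter] at hx hx'
      have h3 := hZS z hz z' hz' hne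
      have h4 := hν.tri z x z'
      have h5 := hν.symm x z'
      linarith [hx.2, hx'.2]
    have h3 : (Z.biUnion fun z => Q.filter fun x => ν z x ≤ r).card ≤ Q.card := by
      apply card_le_card
      intro x hx
      obtain ⟨z, _, hx⟩ := mem_biUnion.1 hx
      exact (mem_filter.1 hx).1
    rw [← h2] at h3
    exact_mod_cast h3
  · intro z hz
    by_contra hcon
    push Not at hcon
    have hzZ : z ∉ Z := by
      intro h
      have := hcon z h
      rw [hν.zero] at this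
      linarith
    have h1 : insert z Z ∈ P.powerset.filter S := by
      rw [mem_filter, mem_powerset]
      refine ⟨insert_subset hz hZP, ?_⟩
      rw [hS]
      intro u hu v hv huv
      rw [mem_insert] at hu hv
      rcases hu with rfl | hu
      · rcases hv with rfl | hv
        · exact absurd rfl huv
        · rw [hν.symm]
          exact hcon v hv
      · rcases hv with rfl | hv
        · exact hcon u hu
        · exact hZS u hu v hv huv
    have h2 := hmax _ h1
    rw [card_insert_of_notMem hzZ] at h2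
    omega

/-- near vertices are not adjacent -/
theorem nm_sepa {A : Ω → Ω → Prop} {G : SimpleGraph Ω} (hS : Sc cl) (hA : Iv cl A)
    (hX : Iv cl X) (hG : ∀ x y, G.Adj x y ↔ A x y) (hK : G.CliqueFree 4)
    (hXA : ∀ x y, X x y → A x y) (h0 : ∀ x, 0 < dg X x) :
    ∀ x a, A x a → 1 / 3 ≤ nm X x a := by
  intro x a hxa
  by_contra hcon
  push Not at hcon
  have hd : (0 : ℝ) < dg X x := by exact_mod_cast h0 x
  obtain ⟨K, hKd⟩ : ∃ K : Ω → Ω → Prop, K = fun s t => cl s t = cl x a := ⟨_, rfl⟩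
  have hKi : Iv cl K := by rw [hKd]; exact iv_class _
  obtain ⟨c, hc⟩ : ∃ c : ℕ, c = ct X X x a := ⟨_, rfl⟩
  have hv : 0 < dg K x := by
    apply card_pos.2
    refine ⟨a, ?_⟩
    rw [mem_filter, hKd]
    exact ⟨mem_univ _, rfl⟩
  -- the set `I` of common neighbours
  obtain ⟨J, hJ⟩ : ∃ J : Finset Ω, J = univ.filter fun z => X x z ∧ X z a := ⟨_, rfl⟩
  have hJc : J.card = c := by rw [hJ, hc]; rfl
  -- pairs
  have h1 : tp X K X x = dg K x * c := by
    rw [tp_rot hS hX hKi hX]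
    unfold tp
    have h2 : ∀ s ∈ univ.filter (fun s => K x s), ct X X s x = c := by
      intro s hs
      rw [mem_filter, hKd] at hs
      rw [hc]
      apply ct_inv hS hX hX
      rw [hS.symm, hs.2]
    rw [sum_congr rfl h2, sum_const, smul_eq_mul]
    rfl
  -- no pair inside `J`
  have hind : ∀ s ∈ J, ∀ t ∈ J, ¬ K s t := by
    intro s hs t ht hst
    rw [hJ, mem_filter] at hs ht
    rw [hKd] at hst
    have e1 : G.Adj x a := (hG _ _).2 hxa
    have e2 : G.Adj x s := (hG _ _).2 (hXA _ _ hs.2.1)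
    have e3 : G.Adj x t := (hG _ _).2 (hXA _ _ ht.2.1)
    have e4 : G.Adj a s := ((hG _ _).2 (hXA _ _ hs.2.2)).symm
    have e5 : G.Adj a t := ((hG _ _).2 (hXA _ _ ht.2.2)).symm
    have e6 : G.Adj s t := (hG _ _).2 (hA _ _ _ _ hst.symm hxa)
    have e7 : G.IsNClique 3 {a, s, t} := SimpleGraph.is3Clique_iff.2 ⟨a, s, t, e4, e5, e6, rfl⟩
    refine hK _ (e7.insert (a := x) ?_)
    intro z hz
    simp only [mem_insert, mem_singleton] at hz
    rcases hz with rfl | rfl | rfl
    · exact e1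
    · exact e2
    · exact e3
  obtain ⟨N, hN⟩ : ∃ N : Finset Ω, N = univ.filter fun z => X x z := ⟨_, rfl⟩
  have hNc : N.card = dg X x := by rw [hN]; rfl
  have hJN : J ⊆ N := by
    intro z hz
    rw [hJ, mem_filter] at hz
    rw [hN, mem_filter]
    exact ⟨mem_univ _, hz.2.1⟩
  have hsd : (N \ J).card + c = dg X x := by
    rw [← hJc, ← hNc, card_sdiff_of_subset hJN]
    have := card_le_card hJN
    omega
  -- bounds
  have h2 : tp X K X x ≤ 2 * ((N \ J).card * dg K x) := by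
    have h3 : tp X K X x ≤ ∑ s ∈ N \ J, dg K x + ∑ s ∈ N, ((N \ J).filter fun t => K s t).card := by
      unfold tp
      rw [← hN, ← sum_sdiff hJN, ← sum_sdiff hJN (f := fun s => ((N \ J).filter fun t => K s t).card)]
      have h4 : ∑ s ∈ N \ J, ct K X s x ≤ ∑ s ∈ N \ J, dg K x := by
        apply sum_le_sum
        intro s _
        rw [dg_eq hS hKi x s]
        exact ct_le_left _ _
      have h5 : ∑ s ∈ J, ct K X s x ≤ ∑ s ∈ J, ((N \ J).filter fun t => K s t).card := by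
        apply sum_le_sum
        intro s hs
        apply card_le_card
        intro t ht
        rw [mem_filter] at ht
        rw [mem_filter, mem_sdiff, hN, mem_filter]
        exact ⟨⟨⟨mem_univ _, (hX.comm hS _ _).1 ht.2.2⟩, fun h => hind s hs t h ht.2.1⟩, ht.2.1⟩
      have h6 : 0 ≤ ∑ s ∈ N \ J, ((N \ J).filter fun t => K s t).card := Nat.zero_le _
      omega
    have h4 : ∑ s ∈ N, ((N \ J).filter fun t => K s t).card ≤ (N \ J).card * dg K x := by
      have h5 := Finset.sum_card_bipartiteAbove_eq_sum_card_bipartiteBelow (s := N)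
        (t := N \ J) (fun s t => K s t)
      unfold Finset.bipartiteAbove Finset.bipartiteBelow at h5
      rw [h5, ← smul_eq_mul, ← sum_const]
      apply sum_le_sum
      intro t _
      rw [dg_eq hS hKi x t]
      apply card_le_card
      intro s hs
      rw [mem_filter] at hs ⊢
      exact ⟨mem_univ _, (hKi.comm hS _ _).1 hs.2⟩
    rw [sum_const, smul_eq_mul] at h3
    omega
  rw [h1] at h2
  have h3 : c ≤ 2 * (N \ J).card := by
    have h4 : dg K x * c ≤ dg K x * (2 * (N \ J).card) := by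
      calc dg K x * c ≤ 2 * ((N \ J).card * dg K x) := h2
        _ = _ := by ring
    exact Nat.le_of_mul_le_mul_left h4 hv
  unfold nm at hcon
  rw [← hc] at hcon
  have h4 : 2 / 3 < (c : ℝ) / dg X x := by linarith
  rw [lt_div_iff₀ hd] at h4
  have h5 : ((N \ J).card : ℝ) + c = dg X x := by exact_mod_cast hsd
  have h6 : (c : ℝ) ≤ 2 * (N \ J).card := by exact_mod_cast h3
  linarith

end

end Pool.Agent.H57.AS
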