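import Mathlib

/-!
# Commutative association schemes
-/

set_option autoImplicit false

namespace Pool.Agent.H57.AS

/-- A commutative association scheme on `V`: `cl x y` is the class of the pair `(x, y)`, the diagonal
is one class, the transpose of a class is a class, the intersection numbers do not depend on the
choice of the pair, and they are symmetric in the first two indices. -/
structure CommScheme {V I : Type} (cl : V → V → I) : Prop where
  diagonal : ∀ x y z : V, cl x x = cl y z ↔ y = z
  transpose : ∀ x y x' y' : V, cl x y = cl x' y' → cl y x = cl y' x'
  intersection : ∀ (i j : I) (x y x' y' : V), cl x y = cl x' y' →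
    Nat.card {z : V // cl x z = i ∧ cl z y = j} = Nat.card {z : V // cl x' z = i ∧ cl z y' = j}
  commutative : ∀ (i j : I) (x y : V),
    Nat.card {z : V // cl x z = i ∧ cl z y = j} = Nat.card {z : V // cl x z = j ∧ cl z y = i}

end Pool.Agent.H57.AS
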