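import Pool.Agent.H57.AS.Spread
import Pool.Agent.H57.AS.Scheme

/-!
# Colouring, and the theorem for symmetric and commutative association schemes
-/

set_option autoImplicit false
set_option linter.unusedSectionVars false

open Finset
open scoped Classical

namespace Pool.Agent.H57.AS

open Pool.Agent.W259.GS (Sh)

section
variable {Ω I : Type} [Fintype Ω] {cl : Ω → Ω → I}

/-- few separated points in a ball -/
theorem deg_bound {A : Ω → Ω → Prop} {κ K : ℝ} {ν : Ω → Ω → ℝ} (hS : Sc cl)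
    (hν : St cl A κ K ν) (hκ : 0 < κ) (hκ2 : κ ≤ 1 / 64) (Y : Finset Ω)
    (hY : ∀ z ∈ Y, ∀ z' ∈ Y, z ≠ z' → 2 * κ < ν z z') (w : Ω)
    (hw : ∀ z ∈ Y, ν w z ≤ 3 / 16) : (Y.card : ℝ) ≤ K := by
  have hB0 : (0 : ℝ) < dg (br ν κ) w := by
    have : 0 < dg (br ν κ) w := by
      apply card_pos.2
      refine ⟨w, ?_⟩
      rw [mem_filter]
      refine ⟨mem_univ _, ?_⟩
      unfold br
      rw [hν.mt.zero]
      exact hκ.le
    exact_mod_cast this
  have h1 : Y.card * dg (br ν κ) w ≤ dg (br ν (1 / 4)) w := by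
    have h2 : ∑ z ∈ Y, dg (br ν κ) z = Y.card * dg (br ν κ) w := by
      rw [sum_congr rfl fun z _ => dg_eq hS (hν.mt.iv κ) z w, sum_const, smul_eq_mul]
    rw [← h2]
    have h3 : ∑ z ∈ Y, dg (br ν κ) z = (Y.biUnion fun z => univ.filter fun x => br ν κ z x).card := by
      rw [card_biUnion]
      · rfl
      intro z hz z' hz' hne
      change Disjoint (univ.filter fun x => br ν κ z x) (univ.filter fun x => br ν κ z' x)
      rw [disjoint_left]
      intro x hx hx'
      have h4 : ν z x ≤ κ := (mem_filter.1 hx).2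
      have h5 : ν z' x ≤ κ := (mem_filter.1 hx').2
      have h6 := hY z hz z' hz' hne
      have h7 := hν.mt.tri z x z'
      rw [hν.mt.symm x z'] at h7
      linarith
    rw [h3]
    apply card_le_dg
    intro x hx
    obtain ⟨z, hz, hx⟩ := mem_biUnion.1 hx
    have h4 : ν z x ≤ κ := (mem_filter.1 hx).2
    have h5 := hν.mt.tri w z x
    have h6 := hw z hz
    unfold br
    linarith
  have h2 : (Y.card : ℝ) * dg (br ν κ) w ≤ K * dg (br ν κ) w := by
    refine le_trans ?_ (hν.dbl w)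
    exact_mod_cast h1
  exact le_of_mul_le_mul_right h2 hB0

/-- colouring of the edges of a thin relation -/
theorem colour {A W : Ω → Ω → Prop} {κ K N : ℝ} (hS : Sc cl)
    (hW : Pc cl A κ K N (1 / 8) W) (hκ : 0 < κ) (hκ2 : κ ≤ 1 / 64) :
    ∃ c : Ω → Fin (⌊N * K⌋₊ + 1), ∀ x x', A x x' → W x x' → c x ≠ c x' := by
  obtain ⟨hWi, ν, hν, hcov⟩ := hW
  obtain ⟨Z, -, -, hZc, hZs⟩ := sep hν.mt (univ : Finset Ω) (univ : Finset Ω) κ 0 hκ.le
    (fun z _ => Nat.cast_nonneg _)
  choose! φ hφ1 hφ2 using fun z => hZc z (mem_univ z)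
  obtain ⟨R, hR⟩ : ∃ R : Ω → Ω → Prop, R = fun z z' => z ∈ Z ∧ z' ∈ Z ∧
    ∃ x x', ν z x ≤ 2 * κ ∧ ν z' x' ≤ 2 * κ ∧ W x x' := ⟨_, rfl⟩
  obtain ⟨c, hc⟩ := Pool.Agent.TH346.LG.greedy R (by
      intro z z' h
      rw [hR] at h ⊢
      obtain ⟨h1, h2, x, x', h3, h4, h5⟩ := h
      exact ⟨h2, h1, x', x, h4, h3, (hWi.comm hS _ _).1 h5⟩) (⌊N * K⌋₊ + 1) (by
      intro z Y hY
      rw [Nat.lt_succ_iff]
      apply Nat.le_floor
      obtain ⟨Y₀, hY1, hY2⟩ := hcov z
      have h1 : Y ⊆ Y₀.biUnion fun y => Y.filter fun z' => ν y z' ≤ 3 / 16 := by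
        intro z' hz'
        have h2 := hY z' hz'
        rw [hR] at h2
        obtain ⟨-, -, x, x', h3, h4, h5⟩ := h2
        obtain ⟨w, hw1, hw2⟩ := supp_comm hS (hν.mt.iv (2 * κ)) hWi (x := z) (z := x) (y := x') h3 h5
        obtain ⟨y, hy1, hy2⟩ := hY2 w hw1
        rw [mem_biUnion]
        refine ⟨y, hy1, mem_filter.2 ⟨hz', ?_⟩⟩
        have h6 := hν.mt.tri y w z'
        have h7 := hν.mt.tri w x' z'
        have h8 : ν w x' ≤ 2 * κ := hw2
        rw [hν.mt.symm x' z'] at h7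
        linarith
      have h2 : (Y.card : ℝ) ≤ ∑ y ∈ Y₀, ((Y.filter fun z' => ν y z' ≤ 3 / 16).card : ℝ) := by
        exact_mod_cast (card_le_card h1).trans card_biUnion_le
      have h3 : ∀ y ∈ Y₀, ((Y.filter fun z' => ν y z' ≤ 3 / 16).card : ℝ) ≤ K := by
        intro y _
        apply deg_bound hS hν hκ hκ2 _ _ y
        · intro a ha
          exact (mem_filter.1 ha).2
        · intro a ha b hb hab
          have ha' := hY a (mem_filter.1 ha).1
          have hb' := hY b (mem_filter.1 hb).1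
          rw [hR] at ha' hb'
          exact hZs a ha'.2.1 b hb'.2.1 hab
      have h4 := h2.trans (sum_le_sum h3)
      rw [sum_const, nsmul_eq_mul] at h4
      have hK0 : 0 ≤ K := by
        have := deg_bound hS hν hκ hκ2 ∅ (by simp) z (by simp)
        simpa using this
      exact h4.trans (mul_le_mul_of_nonneg_right hY1 hK0))
  refine ⟨fun x => c (φ x), ?_⟩
  intro x x' hxA hxW
  apply hc
  · intro h
    have h1 := hν.sepa _ _ hxA
    have h2 := hν.mt.tri x (φ x) x'
    have h3 := hφ2 x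
    have h4 := hφ2 x'
    rw [hν.mt.symm x (φ x)] at h2
    rw [← h] at h4
    linarith
  · rw [hR]
    exact ⟨hφ1 x, hφ1 x', x, x', hφ2 x, hφ2 x', hxW⟩

/-- a covered adjacency gives a colourable graph -/
theorem colourable {A : Ω → Ω → Prop} {G : SimpleGraph Ω} (hS : Sc cl)
    (hG : ∀ x y, G.Adj x y ↔ A x y) {κ K N : ℝ}
    (hκ : 0 < κ) (hκ2 : κ ≤ 1 / 64) (hcov : Cov cl A κ K N (1 / 8) A) :
    G.Colorable ((⌊N * K⌋₊ + 1) ^ ⌊N⌋₊) := by
  obtain ⟨𝒲, h1, h2, h3⟩ := hcov
  have hc : ∀ W : Ω → Ω → Prop, W ∈ 𝒲 → ∃ c : Ω → Fin (⌊N * K⌋₊ + 1), ∀ x x', A x x' → W x x' →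
      c x ≠ c x' :=
    fun W hW => colour hS (h2 W hW) hκ hκ2
  choose! c hc using hc
  let col : G.Coloring (↥𝒲 → Fin (⌊N * K⌋₊ + 1)) :=
    SimpleGraph.Coloring.mk (fun x W => c W.1 x) (by
      intro x x' hxx h
      rw [hG] at hxx
      obtain ⟨W, hW, h4⟩ := h3 _ _ hxx
      exact hc W hW x x' hxx h4 (congrFun h ⟨W, hW⟩))
  have h4 := col.colorable
  rw [Fintype.card_fun, Fintype.card_fin, Fintype.card_coe] at h4
  refine h4.mono ?_
  apply Nat.pow_le_pow_right (by omega)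
  exact Nat.le_floor h1

end

/-- the theorem for symmetric schemes -/
theorem gs_sym {m : ℕ} (F : SimpleGraph (Fin m)) (hF : F.IsAcyclic) :
    ∃ C : ℕ, ∀ (Ω I : Type) [Fintype Ω] (G : SimpleGraph Ω) (cl : Ω → Ω → I), Sc cl →
      Iv cl G.Adj → G.CliqueFree 4 → IsEmpty (F ↪g G) → G.Colorable C := by
  obtain ⟨T, hT, ⟨e⟩⟩ := Pool.Agent.H367R3.forest_in_tree F hF
  obtain ⟨par, f, hf, hfn, hpar, hadj⟩ := Pool.Agent.K4H78.TW.tree_order m (Fin (m + 1)) T hT
    (by simp)
  obtain ⟨N₀, hN₀⟩ := Pool.Agent.W259.GS.noShatter F hF.colorable_two 4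
  obtain ⟨κ, N, K, hκ, hκ2, hN, hcov⟩ := covered m par hpar N₀ T hT
  refine ⟨(⌊N * K⌋₊ + 1) ^ ⌊N⌋₊, ?_⟩
  intro Ω I _ G cl hS hA hK hemp
  by_cases hne : Nonempty Ω
  swap
  · rw [not_nonempty_iff] at hne
    exact SimpleGraph.Colorable.of_isEmpty _
  apply colourable hS (fun x y => Iff.rfl) hκ hκ2
  apply hcov Ω I G cl G.Adj
  refine ⟨hS, hA, fun x y => Iff.rfl, hK, fun Y hY => hN₀ Ω _ Y hK hemp hY, ?_, ?_, hne⟩
  · rintro ⟨w, hw⟩
    have hinj : ∀ x y, f x < f y → w (f x) ≠ w (f y) := by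
      intro x y hxy h
      exact (hw (f x) (f y) hxy (by have := hfn y; omega)).2.2 h
    have hadj' : ∀ x y, f x < f y → (G.Adj (w (f x)) (w (f y)) ↔ T.Adj x y) := by
      intro x y hxy
      rw [hadj x y hxy]
      have := hw (f x) (f y) hxy (by have := hfn y; omega)
      constructor
      · intro h
        by_contra h2
        exact this.2.1 h2 h
      · exact this.1
    let g : T ↪g G :=
      { toFun := fun v => w (f v)
        inj' := by
          intro x y hxy
          rcases lt_trichotomy (f x) (f y) with h | h | h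
          · exact absurd hxy (hinj x y h)
          · exact hf h
          · exact absurd hxy.symm (hinj y x h)
        map_rel_iff' := by
          intro x y
          show G.Adj (w (f x)) (w (f y)) ↔ T.Adj x y
          rcases lt_trichotomy (f x) (f y) with h | h | h
          · exact hadj' x y h
          · rw [hf h]; simp
          · rw [SimpleGraph.adj_comm, hadj' y x h, T.adj_comm] }
    exact hemp.false (e.trans g)
  · intro g hg1 hg2
    let g' : T ↪g G :=
      { toFun := g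
        inj' := hg1
        map_rel_iff' := by
          intro x y
          exact (hg2 x y).symm }
    exact hemp.false (e.trans g')

/-- bijections from equal fibres -/
theorem bij_fib {Ω γ : Type} [Finite Ω] (f g : Ω → γ)
    (h : ∀ c, Nat.card {z // f z = c} = Nat.card {z // g z = c}) :
    ∃ σ : Ω ≃ Ω, ∀ z, g (σ z) = f z := by
  have h1 : ∀ c, Nonempty ({z // f z = c} ≃ {z // g z = c}) := fun c => Finite.card_eq.1 (h c)
  exact ⟨Equiv.ofFiberEquiv fun c => (h1 c).some, fun z => Equiv.ofFiberEquiv_map _ z⟩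

/-- fusion of every class with its transpose -/
theorem fuse {Ω I : Type} [Finite Ω] {cl : Ω → Ω → I} (h : CommScheme cl) :
    Sc fun x y => s(cl x y, cl y x) := by
  have hmv : ∀ x y x' y', cl x y = cl x' y' →
      ∃ σ : Ω ≃ Ω, ∀ z, cl x' (σ z) = cl x z ∧ cl (σ z) y' = cl z y := by
    intro x y x' y' hxy
    obtain ⟨σ, hσ⟩ := bij_fib (fun z => (cl x z, cl z y)) (fun z => (cl x' z, cl z y')) (by
      rintro ⟨i, j⟩
      simp only [Prod.mk.injEq]
      exact h.intersection i j x y x' y' hxy)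
    refine ⟨σ, fun z => ?_⟩
    have := hσ z
    simp only [Prod.mk.injEq] at this
    exact this
  have hsw : ∀ x y, ∃ σ : Ω ≃ Ω, ∀ z, cl x (σ z) = cl z y ∧ cl (σ z) y = cl x z := by
    intro x y
    obtain ⟨σ, hσ⟩ := bij_fib (fun z => (cl z y, cl x z)) (fun z => (cl x z, cl z y)) (by
      rintro ⟨i, j⟩
      simp only [Prod.mk.injEq]
      rw [← h.commutative j i x y]
      apply Nat.card_congr
      exact Equiv.subtypeEquivRight fun z => and_comm)
    refine ⟨σ, fun z => ?_⟩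
    have := hσ z
    simp only [Prod.mk.injEq] at this
    exact this
  refine ⟨fun x y => Sym2.eq_swap, ?_, ?_, ?_⟩
  · intro x y z hxy
    simp only [Sym2.eq_iff] at hxy
    rcases hxy with hxy | hxy
    · exact (h.diagonal x y z).1 hxy.1
    · exact (h.diagonal x y z).1 hxy.2
  · intro x y
    have h1 : cl x x = cl y y := (h.diagonal x y y).2 rfl
    simp only [h1]
  · intro x y x' y' hxy
    simp only [Sym2.eq_iff] at hxy
    rcases hxy with hxy | hxy
    · obtain ⟨σ, hσ⟩ := hmv x y x' y' hxy.1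
      refine ⟨σ, fun z => ?_⟩
      obtain ⟨h1, h2⟩ := hσ z
      have h3 := h.transpose _ _ _ _ h1
      have h4 := h.transpose _ _ _ _ h2
      simp only [h1, h2, h3, h4, and_self]
    · obtain ⟨σ, hσ⟩ := hmv x y y' x' hxy.1
      obtain ⟨τ, hτ⟩ := hsw y' x'
      refine ⟨σ.trans τ, fun z => ?_⟩
      obtain ⟨h1, h2⟩ := hσ z
      obtain ⟨h5, h6⟩ := hτ (σ z)
      have h3 := h.transpose _ _ _ _ h1
      have h4 := h.transpose _ _ _ _ h2
      have h7 := h.transpose _ _ _ _ h5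
      have h8 := h.transpose _ _ _ _ h6
      simp only [Equiv.trans_apply]
      rw [h7, h8, h5, h6, h1, h2, h3, h4]
      exact ⟨Sym2.eq_swap, Sym2.eq_swap⟩

/-- the theorem for commutative schemes -/
theorem gs_comm {m : ℕ} (F : SimpleGraph (Fin m)) (hF : F.IsAcyclic) :
    ∃ C : ℕ, ∀ (Ω I : Type) [Finite Ω] (G : SimpleGraph Ω) (cl : Ω → Ω → I), CommScheme cl →
      (∀ x y x' y', cl x y = cl x' y' → G.Adj x y → G.Adj x' y') → G.CliqueFree 4 →
      IsEmpty (F ↪g G) → G.Colorable C := by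
  obtain ⟨C, hC⟩ := gs_sym F hF
  refine ⟨C, ?_⟩
  intro Ω I _ G cl hcl hG hK hemp
  have : Fintype Ω := Fintype.ofFinite Ω
  refine hC Ω (Sym2 I) G (fun x y => s(cl x y, cl y x)) (fuse hcl) ?_ hK hemp
  intro x y x' y' hxy h
  simp only [Sym2.eq_iff] at hxy
  rcases hxy with hxy | hxy
  · exact hG _ _ _ _ hxy.1 h
  · exact (hG _ _ _ _ hxy.1 h).symm

end Pool.Agent.H57.AS
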