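import Pool.Graph.R_seed8.Y394.AT.Embed
import Pool.Agent.H57.AS.Base

/-!
# Induced trees from light continuations

The argument of the starting library (`Pool.Agent.Y394.AT`, for arc-transitive graphs) with a weaker
hypothesis: only the total number of light continuations into a neighbourhood is assumed to be small.
-/

set_option autoImplicit false

namespace Pool.Agent.H57.AS

open Finset
open Pool.Agent.Y394.AT (eb eb_mono eb_comm markov Inv few_dense tree_embed)

open Classical in
/-- A system of light continuations. -/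
structure LS {V : Type} [Fintype V] (G : SimpleGraph V) (d δ lam : ℝ)
    (A : V → V → Prop) (Λ : V → V → Finset V) : Prop where
  adj : ∀ z x, A z x → G.Adj z x
  outd : ∀ v, (((univ : Finset V).filter (fun w => A v w)).card : ℝ) ≤ d
  cont : ∀ z x, A z x → ∀ w ∈ Λ z x, A x w ∧ w ≠ z ∧ ¬ G.Adj z w
  large : ∀ z x, A z x → lam * d ≤ ((Λ z x).card : ℝ)
  sum : ∀ (p : V) (Lp : Finset V), (∀ w ∈ Lp, A p w) → ∀ l : V,
    ∑ w ∈ Lp, (((Λ p w).filter (fun y => G.Adj l y)).card : ℝ) ≤ δ * d * d

set_option maxHeartbeats 1000000 in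
open Classical in
theorem step {V : Type} [Fintype V] {G : SimpleGraph V} {d δ lam : ℝ}
    {A : V → V → Prop} {Λ : V → V → Finset V} (h : LS G d δ lam A Λ)
    (k : ℕ) (hk : 1 ≤ k) (hG : G.CliqueFree (k + 1)) (κ κ1 μ μ' : ℝ)
    (hd : 1 ≤ d) (hδ : 0 < δ) (hκ : 0 < κ) (hκ1 : 0 < κ1) (hμ : 0 < μ) (n : ℕ)
    (hc1 : n * (κ / κ1 + δ / κ1 + δ / κ) < μ / k)
    (hc2 : μ' * d ≤ μ * d / k - 1)
    (hc3 : μ' * d ≤ μ * d - κ1 * d - 1)
    (hc4 : μ' * d ≤ lam * d - n * (κ1 * d + 1))
    (S : Finset V) (hS : S.card = n) (hI : Inv G d κ A μ S) (p : V) (hp : p ∈ S) :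
    ∃ y, y ∉ S ∧ G.Adj p y ∧ (∀ s ∈ S, s ≠ p → ¬ G.Adj s y) ∧
      Inv G d κ A μ' (insert y S) := by
  obtain ⟨L, hL1, hL2⟩ := hI
  have hd0 : 0 < d := by linarith
  have hkR : (0 : ℝ) < k := by exact_mod_cast hk
  set Lp := L p with hLp
  have hLpA : ∀ w ∈ Lp, A p w := (hL1 p hp).1
  have hLpc : μ * d ≤ (Lp.card : ℝ) := (hL1 p hp).2
  have hLpadj : ∀ w ∈ Lp, G.Adj p w := fun w hw => h.adj _ _ (hLpA w hw)
  -- bad sets
  set Bb := Lp.filter (fun w => (k : ℝ) * ((Lp.filter (fun y => ¬ G.Adj w y)).card : ℝ) ≤ Lp.card)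
    with hBb
  have hBbc : (k : ℝ) * (Bb.card : ℝ) ≤ ((k : ℝ) - 1) * (Lp.card : ℝ) :=
    few_dense G k hG p Lp hLpadj Bb (Finset.filter_subset _ _)
      (fun w hw => (Finset.mem_filter.1 hw).2)
  set Bc : V → Finset V := fun l => if l = p then ∅ else
    Lp.filter (fun w => κ1 * d < (((L l).filter (fun y => G.Adj w y)).card : ℝ)) with hBc
  set Bd : V → Finset V := fun l =>
    Lp.filter (fun w => κ1 * d < (((Λ p w).filter (fun y => G.Adj l y)).card : ℝ)) with hBd
  set Be : V → Finset V := fun l =>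
    Lp.filter (fun w => κ * d * d < (eb G (L l) (Λ p w) : ℝ)) with hBe
  have hBcc : ∀ l ∈ S, ((Bc l).card : ℝ) ≤ κ / κ1 * d := by
    intro l hl
    by_cases hlp : l = p
    · simp only [hBc]
      rw [if_pos hlp]
      simp only [Finset.card_empty, Nat.cast_zero]
      positivity
    · simp only [hBc]
      rw [if_neg hlp]
      have h1 := markov Lp (fun w => (((L l).filter (fun y => G.Adj w y)).card : ℝ)) (κ1 * d)
        (fun _ _ => Nat.cast_nonneg _)
      have h2 : ∑ w ∈ Lp, (((L l).filter (fun y => G.Adj w y)).card : ℝ) ≤ κ * d * d := by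
        have h3 := (hL2 p hp l hl (Ne.symm hlp)).2
        unfold eb at h3
        push_cast at h3
        exact h3
      have h3 := h1.trans h2
      rw [div_mul_eq_mul_div, le_div_iff₀ hκ1]
      have h4 : κ1 * d * ((Lp.filter (fun w => κ1 * d <
          (((L l).filter (fun y => G.Adj w y)).card : ℝ))).card : ℝ) ≤ (κ * d) * d := h3
      have h5 : ((((Lp.filter (fun w => κ1 * d <
          (((L l).filter (fun y => G.Adj w y)).card : ℝ))).card : ℝ) * κ1) * d) ≤ (κ * d) * d := by
        linarith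
      exact le_of_mul_le_mul_right h5 hd0
  have hBdc : ∀ l, ((Bd l).card : ℝ) ≤ δ / κ1 * d := by
    intro l
    have h1 := markov Lp (fun w => (((Λ p w).filter (fun y => G.Adj l y)).card : ℝ)) (κ1 * d)
      (fun _ _ => Nat.cast_nonneg _)
    have h3 := h1.trans (h.sum p Lp hLpA l)
    rw [div_mul_eq_mul_div, le_div_iff₀ hκ1]
    have h5 : (((Bd l).card : ℝ) * κ1) * d ≤ (δ * d) * d := by
      simp only [hBd]
      linarith
    exact le_of_mul_le_mul_right h5 hd0
  have hLdeg : ∀ l ∈ S, ((L l).card : ℝ) ≤ d := by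
    intro l hl
    refine le_trans ?_ (h.outd l)
    have : (L l).card ≤ ((univ : Finset V).filter (fun w => A l w)).card := by
      apply Finset.card_le_card
      intro w hw
      exact Finset.mem_filter.2 ⟨Finset.mem_univ _, (hL1 l hl).1 w hw⟩
    exact_mod_cast this
  have hBec : ∀ l ∈ S, ((Be l).card : ℝ) ≤ δ / κ * d := by
    intro l hl
    have h1 := markov Lp (fun w => (eb G (L l) (Λ p w) : ℝ)) (κ * d * d)
      (fun _ _ => Nat.cast_nonneg _)
    have h2 : ∑ w ∈ Lp, (eb G (L l) (Λ p w) : ℝ) ≤ δ * d * d * d := by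
      unfold eb
      push_cast
      rw [Finset.sum_comm]
      calc ∑ a ∈ L l, ∑ w ∈ Lp, (((Λ p w).filter (fun b => G.Adj a b)).card : ℝ)
          ≤ ∑ a ∈ L l, δ * d * d :=
            Finset.sum_le_sum fun a _ => h.sum p Lp hLpA a
        _ = ((L l).card : ℝ) * (δ * d * d) := by rw [Finset.sum_const, nsmul_eq_mul]
        _ ≤ d * (δ * d * d) := mul_le_mul_of_nonneg_right (hLdeg l hl) (by positivity)
        _ = δ * d * d * d := by ring
    have h3 := h1.trans h2
    rw [div_mul_eq_mul_div, le_div_iff₀ hκ]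
    have h5 : (((Be l).card : ℝ) * κ) * (d * d) ≤ (δ * d) * (d * d) := by
      simp only [hBe]
      nlinarith
    exact le_of_mul_le_mul_right h5 (by positivity)
  -- choose w
  obtain ⟨w, hwL, hwB⟩ : ∃ w ∈ Lp, w ∉ Bb ∪ S.biUnion (fun l => Bc l ∪ (Bd l ∪ Be l)) := by
    by_contra hno
    push Not at hno
    have h1 : Lp.card ≤ (Bb ∪ S.biUnion (fun l => Bc l ∪ (Bd l ∪ Be l))).card :=
      Finset.card_le_card hno
    have h2 : ((Bb ∪ S.biUnion (fun l => Bc l ∪ (Bd l ∪ Be l))).card : ℝ) ≤
        Bb.card + n * ((κ / κ1 + δ / κ1 + δ / κ) * d) := by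
      have h3 : (Bb ∪ S.biUnion (fun l => Bc l ∪ (Bd l ∪ Be l))).card ≤
          Bb.card + (S.biUnion (fun l => Bc l ∪ (Bd l ∪ Be l))).card := Finset.card_union_le _ _
      have h4 : ((S.biUnion (fun l => Bc l ∪ (Bd l ∪ Be l))).card : ℝ) ≤
          ∑ l ∈ S, ((Bc l ∪ (Bd l ∪ Be l)).card : ℝ) := by
        exact_mod_cast Finset.card_biUnion_le
      have h5 : ∑ l ∈ S, ((Bc l ∪ (Bd l ∪ Be l)).card : ℝ) ≤
          ∑ l ∈ S, ((κ / κ1 + δ / κ1 + δ / κ) * d) := by
        apply Finset.sum_le_sum
        intro l hl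
        have h6 : (Bc l ∪ (Bd l ∪ Be l)).card ≤ (Bc l).card + ((Bd l).card + (Be l).card) :=
          (Finset.card_union_le _ _).trans
            (Nat.add_le_add_left (Finset.card_union_le _ _) _)
        have h7 : ((Bc l ∪ (Bd l ∪ Be l)).card : ℝ) ≤
            (Bc l).card + ((Bd l).card + (Be l).card) := by exact_mod_cast h6
        have := hBcc l hl
        have := hBdc l
        have := hBec l hl
        linarith
      rw [Finset.sum_const, nsmul_eq_mul, hS] at h5
      have h3' : ((Bb ∪ S.biUnion (fun l => Bc l ∪ (Bd l ∪ Be l))).card : ℝ) ≤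
          Bb.card + (S.biUnion (fun l => Bc l ∪ (Bd l ∪ Be l))).card := by exact_mod_cast h3
      linarith
    have h3 : (Lp.card : ℝ) ≤ Bb.card + n * ((κ / κ1 + δ / κ1 + δ / κ) * d) :=
      le_trans (by exact_mod_cast h1) h2
    have h4 : (n : ℝ) * ((κ / κ1 + δ / κ1 + δ / κ) * d) < μ / k * d := by
      have := mul_lt_mul_of_pos_right hc1 hd0
      linarith
    have h5 : (Lp.card : ℝ) < Bb.card + μ / k * d := by linarith
    have h6 : (k : ℝ) * (Lp.card : ℝ) < k * Bb.card + μ * d := by
      have := mul_lt_mul_of_pos_left h5 hkR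
      have h7 : (k : ℝ) * (μ / k * d) = μ * d := by
        field_simp
      linarith
    linarith
  rw [Finset.mem_union, not_or, Finset.mem_biUnion] at hwB
  obtain ⟨hw1, hw2⟩ := hwB
  push Not at hw2
  have hwp : A p w := hLpA w hwL
  have hpw : G.Adj p w := hLpadj w hwL
  have hwS : w ∉ S := by
    intro hw
    by_cases hwp' : w = p
    · rw [hwp'] at hpw
      exact G.loopless.irrefl _ hpw
    · exact ((hL2 p hp w hw (Ne.symm hwp')).1 w hwL).1 rfl
  have hwadj : ∀ s ∈ S, s ≠ p → ¬ G.Adj s w := fun s hs hsp =>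
    ((hL2 p hp s hs (Ne.symm hsp)).1 w hwL).2
  have hgb : (Lp.card : ℝ) / k ≤ ((Lp.filter (fun y => ¬ G.Adj w y)).card : ℝ) := by
    rw [div_le_iff₀ hkR]
    by_contra hcon
    push Not at hcon
    exact hw1 (Finset.mem_filter.2 ⟨hwL, by linarith⟩)
  have hgc : ∀ l ∈ S, l ≠ p → (((L l).filter (fun y => G.Adj w y)).card : ℝ) ≤ κ1 * d := by
    intro l hl hlp
    by_contra hcon
    push Not at hcon
    apply hw2 l hl
    rw [Finset.mem_union]
    left
    simp only [hBc]
    rw [if_neg hlp]
    exact Finset.mem_filter.2 ⟨hwL, hcon⟩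
  have hgd : ∀ l ∈ S, (((Λ p w).filter (fun y => G.Adj l y)).card : ℝ) ≤ κ1 * d := by
    intro l hl
    by_contra hcon
    push Not at hcon
    apply hw2 l hl
    rw [Finset.mem_union, Finset.mem_union]
    right
    left
    exact Finset.mem_filter.2 ⟨hwL, hcon⟩
  have hge : ∀ l ∈ S, (eb G (L l) (Λ p w) : ℝ) ≤ κ * d * d := by
    intro l hl
    by_contra hcon
    push Not at hcon
    apply hw2 l hl
    rw [Finset.mem_union, Finset.mem_union]
    right
    right
    exact Finset.mem_filter.2 ⟨hwL, hcon⟩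
  -- the new sets
  set L' : V → Finset V := fun v => if v = w then
      (Λ p w).filter (fun y => ∀ s ∈ S, s ≠ p → y ≠ s ∧ ¬ G.Adj s y)
    else (L v).filter (fun y => y ≠ w ∧ ¬ G.Adj w y) with hL'
  have hL'w : L' w = (Λ p w).filter (fun y => ∀ s ∈ S, s ≠ p → y ≠ s ∧ ¬ G.Adj s y) := by
    simp only [hL', if_true]
  have hL's : ∀ s ∈ S, L' s = (L s).filter (fun y => y ≠ w ∧ ¬ G.Adj w y) := by
    intro s hs
    simp only [hL']
    rw [if_neg]
    rintro rfl
    exact hwS hs
  refine ⟨w, hwS, hpw, hwadj, L', ?_, ?_⟩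
  · intro x hx
    rcases Finset.mem_insert.1 hx with rfl | hx
    · rw [hL'w]
      refine ⟨?_, ?_⟩
      · intro y hy
        exact (h.cont p x hwp y (Finset.mem_filter.1 hy).1).1
      · refine le_trans hc4 ?_
        have h1 : (Λ p x).card ≤ ((Λ p x).filter
            (fun y => ∀ s ∈ S, s ≠ p → y ≠ s ∧ ¬ G.Adj s y)).card +
            (S.biUnion (fun s => insert s ((Λ p x).filter (fun y => G.Adj s y)))).card := by
          rw [← Finset.card_union_add_card_inter]
          refine le_trans (Finset.card_le_card ?_) (Nat.le_add_right _ _)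
          intro y hy
          rw [Finset.mem_union, Finset.mem_filter, Finset.mem_biUnion]
          by_cases hy2 : ∀ s ∈ S, s ≠ p → y ≠ s ∧ ¬ G.Adj s y
          · exact Or.inl ⟨hy, hy2⟩
          · push Not at hy2
            obtain ⟨s, hs, hsp, hys⟩ := hy2
            right
            refine ⟨s, hs, ?_⟩
            rw [Finset.mem_insert, Finset.mem_filter]
            by_cases hysq : y = s
            · exact Or.inl hysq
            · exact Or.inr ⟨hy, hys hysq⟩
        have h2 : ((S.biUnion (fun s => insert s ((Λ p x).filter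
            (fun y => G.Adj s y)))).card : ℝ) ≤ n * (κ1 * d + 1) := by
          have h3 : ((S.biUnion (fun s => insert s ((Λ p x).filter
              (fun y => G.Adj s y)))).card : ℝ) ≤
              ∑ s ∈ S, ((insert s ((Λ p x).filter (fun y => G.Adj s y))).card : ℝ) := by
            exact_mod_cast Finset.card_biUnion_le
          have h4 : ∑ s ∈ S, ((insert s ((Λ p x).filter (fun y => G.Adj s y))).card : ℝ) ≤
              ∑ s ∈ S, (κ1 * d + 1) := by
            apply Finset.sum_le_sum
            intro s hs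
            have h5 : (insert s ((Λ p x).filter (fun y => G.Adj s y))).card ≤
              ((Λ p x).filter (fun y => G.Adj s y)).card + 1 := Finset.card_insert_le _ _
            have h6 : ((insert s ((Λ p x).filter (fun y => G.Adj s y))).card : ℝ) ≤
              ((Λ p x).filter (fun y => G.Adj s y)).card + 1 := by exact_mod_cast h5
            have := hgd s hs
            linarith
          rw [Finset.sum_const, nsmul_eq_mul, hS] at h4
          linarith
        have h3 := h.large p x hwp
        have h1' : ((Λ p x).card : ℝ) ≤ ((Λ p x).filter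
            (fun y => ∀ s ∈ S, s ≠ p → y ≠ s ∧ ¬ G.Adj s y)).card +
            (S.biUnion (fun s => insert s ((Λ p x).filter (fun y => G.Adj s y)))).card := by
          exact_mod_cast h1
        linarith
    · rw [hL's x hx]
      refine ⟨fun y hy => (hL1 x hx).1 y (Finset.mem_filter.1 hy).1, ?_⟩
      by_cases hxp : x = p
      · subst hxp
        have h1 : (Lp.filter (fun y => ¬ G.Adj w y)).card ≤
            ((L x).filter (fun y => y ≠ w ∧ ¬ G.Adj w y)).card + 1 := by
          have h2 : Lp.filter (fun y => ¬ G.Adj w y) ⊆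
              insert w ((L x).filter (fun y => y ≠ w ∧ ¬ G.Adj w y)) := by
            intro y hy
            obtain ⟨hy1, hy2⟩ := Finset.mem_filter.1 hy
            rw [Finset.mem_insert, Finset.mem_filter]
            by_cases hyw : y = w
            · exact Or.inl hyw
            · exact Or.inr ⟨hy1, hyw, hy2⟩
          exact (Finset.card_le_card h2).trans (Finset.card_insert_le _ _)
        have h1' : ((Lp.filter (fun y => ¬ G.Adj w y)).card : ℝ) ≤
            ((L x).filter (fun y => y ≠ w ∧ ¬ G.Adj w y)).card + 1 := by exact_mod_cast h1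
        have h3 : μ * d / k ≤ (Lp.card : ℝ) / k := div_le_div_of_nonneg_right hLpc hkR.le
        linarith
      · have h1 : (L x).card ≤ ((L x).filter (fun y => y ≠ w ∧ ¬ G.Adj w y)).card +
            (((L x).filter (fun y => G.Adj w y)).card + 1) := by
          have h2 : L x ⊆ ((L x).filter (fun y => y ≠ w ∧ ¬ G.Adj w y)) ∪
              (insert w ((L x).filter (fun y => G.Adj w y))) := by
            intro y hy
            rw [Finset.mem_union, Finset.mem_filter, Finset.mem_insert, Finset.mem_filter]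
            by_cases hyw : y = w
            · exact Or.inr (Or.inl hyw)
            · by_cases hya : G.Adj w y
              · exact Or.inr (Or.inr ⟨hy, hya⟩)
              · exact Or.inl ⟨hy, hyw, hya⟩
          refine (Finset.card_le_card h2).trans ((Finset.card_union_le _ _).trans ?_)
          exact Nat.add_le_add_left (Finset.card_insert_le _ _) _
        have h1' : ((L x).card : ℝ) ≤ ((L x).filter (fun y => y ≠ w ∧ ¬ G.Adj w y)).card +
            (((L x).filter (fun y => G.Adj w y)).card + 1) := by exact_mod_cast h1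
        have h3 := hgc x hx hxp
        have h4 := (hL1 x hx).2
        linarith
  · intro x hx y hy hxy
    rcases Finset.mem_insert.1 hx with rfl | hxS
    · rcases Finset.mem_insert.1 hy with rfl | hyS
      · exact absurd rfl hxy
      · rw [hL'w, hL's y hyS]
        refine ⟨?_, ?_⟩
        · intro a ha
          obtain ⟨ha1, ha2⟩ := Finset.mem_filter.1 ha
          by_cases hyp : y = p
          · subst hyp
            exact (h.cont y x hwp a ha1).2
          · exact ha2 y hyS hyp
        · have h1 : eb G ((Λ p x).filter (fun y => ∀ s ∈ S, s ≠ p → y ≠ s ∧ ¬ G.Adj s y))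
              ((L y).filter (fun z => z ≠ x ∧ ¬ G.Adj x z)) ≤ eb G (Λ p x) (L y) :=
            eb_mono G (Finset.filter_subset _ _) (Finset.filter_subset _ _)
          rw [eb_comm G (Λ p x)] at h1
          exact le_trans (by exact_mod_cast h1) (hge y hyS)
    · rcases Finset.mem_insert.1 hy with rfl | hyS
      · rw [hL'w, hL's x hxS]
        refine ⟨?_, ?_⟩
        · intro a ha
          exact (Finset.mem_filter.1 ha).2
        · have h1 : eb G ((L x).filter (fun z => z ≠ y ∧ ¬ G.Adj y z))
              ((Λ p y).filter (fun z => ∀ s ∈ S, s ≠ p → z ≠ s ∧ ¬ G.Adj s z)) ≤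
              eb G (L x) (Λ p y) :=
            eb_mono G (Finset.filter_subset _ _) (Finset.filter_subset _ _)
          exact le_trans (by exact_mod_cast h1) (hge x hxS)
      · rw [hL's x hxS, hL's y hyS]
        obtain ⟨h1, h2⟩ := hL2 x hxS y hyS hxy
        refine ⟨fun a ha => h1 a (Finset.mem_filter.1 ha).1, ?_⟩
        have h3 : eb G ((L x).filter (fun z => z ≠ w ∧ ¬ G.Adj w z))
              ((L y).filter (fun z => z ≠ w ∧ ¬ G.Adj w z)) ≤ eb G (L x) (L y) :=
            eb_mono G (Finset.filter_subset _ _) (Finset.filter_subset _ _)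
        exact le_trans (by exact_mod_cast h3) h2

/-- Induced trees in graphs with a light system. -/
theorem embed_tree (N k : ℕ) (hN : 1 ≤ N) (hk : 1 ≤ k) (lam : ℝ) (hlam : 0 < lam)
    (hlam1 : lam ≤ 1) : ∃ δ : ℝ, 0 < δ ∧ ∃ d0 : ℝ, ∀ (V : Type) [Fintype V] (G : SimpleGraph V)
      (d : ℝ) (A : V → V → Prop) (Λ : V → V → Finset V), d0 ≤ d →
      LS G d δ lam A Λ → (∃ z x, A z x) → G.CliqueFree (k + 1) →
      ∀ (n : ℕ), n < N → ∀ (α : Type) [Fintype α] (T : SimpleGraph α), T.IsTree →
        Fintype.card α = n + 1 → ∃ f : α → V, Function.Injective f ∧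
          ∀ a b, T.Adj a b ↔ G.Adj (f a) (f b) := by
  have hNR : (1 : ℝ) ≤ N := by exact_mod_cast hN
  have hkR : (1 : ℝ) ≤ k := by exact_mod_cast hk
  have hN0 : (0 : ℝ) < N := by linarith
  have hk0 : (0 : ℝ) < k := by linarith
  set q : ℝ := 1 / (2 * k) with hq
  have hq0 : 0 < q := by positivity
  have hq1 : q ≤ 1 / 2 := by
    rw [hq]
    apply one_div_le_one_div_of_le <;> linarith
  set μ : ℕ → ℝ := fun n => lam * q ^ n with hμ
  have hμ0 : ∀ n, 0 < μ n := fun n => by simp only [hμ]; positivity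
  have hμs : ∀ n, μ (n + 1) = μ n / (2 * k) := by
    intro n
    simp only [hμ, hq]
    rw [pow_succ]
    field_simp
  have hμanti : ∀ n, μ (n + 1) ≤ μ n := by
    intro n
    rw [hμs]
    apply div_le_self (hμ0 n).le
    linarith
  have hμanti' : Antitone μ := antitone_nat_of_succ_le hμanti
  have hμhalf : ∀ n, μ (n + 1) ≤ μ n / 2 := by
    intro n
    rw [hμs]
    apply div_le_div_of_nonneg_left (hμ0 n).le (by norm_num) (by linarith)
  set ℓ : ℝ := μ N with hℓ
  have hℓ0 : 0 < ℓ := hμ0 N
  have hℓlam : ℓ ≤ lam := by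
    have := hμanti' (Nat.zero_le N)
    simpa [hμ] using this
  have hℓ1 : ℓ ≤ 1 := hℓlam.trans hlam1
  set κ1 : ℝ := ℓ / (4 * N) with hκ1
  have hκ10 : 0 < κ1 := by positivity
  have hNκ1 : N * κ1 = ℓ / 4 := by
    rw [hκ1]
    field_simp
  have hκ1ℓ : κ1 ≤ ℓ / 4 := by
    rw [← hNκ1]
    nlinarith
  set r : ℝ := ℓ / (8 * N * k) with hr
  have hr0 : 0 < r := by positivity
  have hr1 : r ≤ 1 := by
    rw [hr, div_le_one (by positivity)]
    nlinarith
  set κ : ℝ := κ1 * r with hκ
  have hκ0 : 0 < κ := by positivity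
  have hκκ1 : κ ≤ κ1 := by
    rw [hκ]
    nlinarith
  set δ : ℝ := κ * r with hδ
  have hδ0 : 0 < δ := by positivity
  refine ⟨δ, hδ0, max 1 (8 * k * N / ℓ), ?_⟩
  intro V _ G d A Λ hd h hex hG n hn α _ T hT hcard
  classical
  have hd1 : 1 ≤ d := (le_max_left _ _).trans hd
  have hd2 : 8 * k * N / ℓ ≤ d := (le_max_right _ _).trans hd
  have hd0 : 0 < d := by linarith
  have hd3 : 8 * k * N ≤ ℓ * d := by
    rw [div_le_iff₀ hℓ0] at hd2
    linarith
  have hkN : (k : ℝ) ≤ k * N := by nlinarith
  have hNk : (N : ℝ) ≤ k * N := by nlinarith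
  obtain ⟨f, hf1, _, hf2⟩ := tree_embed G (fun n S => Inv G d κ A (μ n) S) N (by
    obtain ⟨z, x, hzx⟩ := hex
    refine ⟨x, fun _ => Λ z x, ?_, ?_⟩
    · intro a ha
      rw [Finset.mem_singleton.1 ha]
      refine ⟨fun w hw => (h.cont z x hzx w hw).1, le_trans ?_ (h.large z x hzx)⟩
      apply mul_le_mul_of_nonneg_right _ hd0.le
      have := hμanti' (Nat.zero_le 1)
      simpa [hμ] using this
    · intro a ha b hb hab
      exact absurd ((Finset.mem_singleton.1 ha).trans (Finset.mem_singleton.1 hb).symm) hab) (by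
    intro n hn1 hnN S hS hI p hp
    have hnR : (n : ℝ) ≤ N := by exact_mod_cast hnN.le
    have hn0 : (0 : ℝ) ≤ n := Nat.cast_nonneg _
    have hℓn : ℓ ≤ μ n := hμanti' hnN.le
    have hℓn1 : ℓ ≤ μ (n + 1) := hμanti' hnN
    refine step h k hk hG κ κ1 (μ n) (μ (n + 1)) hd1 hδ0 hκ0 hκ10 (hμ0 n) n ?_ ?_ ?_ ?_ S hS hI p hp
    · have e1 : κ / κ1 = r := by
        rw [hκ]
        field_simp
      have e2 : δ / κ = r := by
        rw [hδ]
        field_simp
      have e3 : δ / κ1 ≤ r := by
        rw [← e2]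
        exact div_le_div_of_nonneg_left hδ0.le hκ0 hκκ1
      calc (n : ℝ) * (κ / κ1 + δ / κ1 + δ / κ) ≤ N * (r + r + r) := by
            apply mul_le_mul hnR _ _ hN0.le
            · rw [e1, e2]
              linarith
            · positivity
        _ = 3 / 8 * (ℓ / k) := by
            rw [hr]
            field_simp
            ring
        _ < ℓ / k := by
            have : 0 < ℓ / k := by positivity
            linarith
        _ ≤ μ n / k := div_le_div_of_nonneg_right hℓn hk0.le
    · have e1 : μ n * d / k = 2 * (μ (n + 1) * d) := by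
        rw [hμs]
        field_simp
      have e2 : ℓ * d ≤ μ (n + 1) * d := mul_le_mul_of_nonneg_right hℓn1 hd0.le
      rw [e1]
      nlinarith
    · have e1 : μ (n + 1) * d ≤ μ n / 2 * d := mul_le_mul_of_nonneg_right (hμhalf n) hd0.le
      have e2 : ℓ * d ≤ μ n * d := mul_le_mul_of_nonneg_right hℓn hd0.le
      have e3 : κ1 * d ≤ ℓ / 4 * d := mul_le_mul_of_nonneg_right hκ1ℓ hd0.le
      nlinarith
    · have e1 : μ (n + 1) * d ≤ lam / 2 * d := by
        apply mul_le_mul_of_nonneg_right _ hd0.le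
        have := hμanti' (Nat.zero_le n)
        have h2 : μ 0 = lam := by simp [hμ]
        have := hμhalf n
        linarith
      have e2 : (n : ℝ) * (κ1 * d + 1) ≤ N * (κ1 * d + 1) :=
        mul_le_mul_of_nonneg_right hnR (by positivity)
      have e3 : (N : ℝ) * (κ1 * d + 1) = ℓ / 4 * d + N := by
        rw [← hNκ1]
        ring
      have e4 : ℓ * d ≤ lam * d := mul_le_mul_of_nonneg_right hℓlam hd0.le
      nlinarith) n hn α T hT hcard
  exact ⟨f, hf1, hf2⟩

end Pool.Agent.H57.AS
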