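import Pool.Agent.H57.AS.Col

/-!
# Generously transitive graphs; parts
-/

set_option autoImplicit false
set_option linter.unusedSectionVars false

open Finset
open scoped Classical

namespace Pool.Agent.H57.AS

/-- the class of a pair under the automorphisms -/
def orb {Ω : Type} (G : SimpleGraph Ω) (x y : Ω) : Set (Ω × Ω) :=
  {p | ∃ σ : G ≃g G, p = (σ x, σ y)}

theorem orb_iff {Ω : Type} (G : SimpleGraph Ω) (x y x' y' : Ω) :
    orb G x y = orb G x' y' ↔ ∃ σ : G ≃g G, σ x = x' ∧ σ y = y' := by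
  constructor
  · intro h
    have h1 : (x', y') ∈ orb G x' y' := ⟨SimpleGraph.Iso.refl, rfl⟩
    rw [← h] at h1
    obtain ⟨σ, hσ⟩ := h1
    rw [Prod.mk.injEq] at hσ
    exact ⟨σ, hσ.1.symm, hσ.2.symm⟩
  · rintro ⟨σ, rfl, rfl⟩
    ext p
    constructor
    · rintro ⟨τ, rfl⟩
      exact ⟨σ.symm.trans τ, by simp⟩
    · rintro ⟨τ, rfl⟩
      exact ⟨σ.trans τ, by simp⟩

/-- the theorem for generously transitive graphs -/
theorem gs_gen {m : ℕ} (F : SimpleGraph (Fin m)) (hF : F.IsAcyclic) :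
    ∃ C : ℕ, ∀ (Ω : Type) [Finite Ω] (G : SimpleGraph Ω),
      (∀ x y : Ω, ∃ σ : G ≃g G, σ x = y ∧ σ y = x) → G.CliqueFree 4 →
      IsEmpty (F ↪g G) → G.Colorable C := by
  obtain ⟨C, hC⟩ := gs_sym F hF
  refine ⟨C, ?_⟩
  intro Ω _ G hgen hK hemp
  have : Fintype Ω := Fintype.ofFinite Ω
  refine hC Ω (Set (Ω × Ω)) G (orb G) ?_ ?_ hK hemp
  · refine ⟨?_, ?_, ?_, ?_⟩
    · intro x y
      rw [orb_iff]
      exact hgen x y
    · intro x y z h
      rw [orb_iff] at h
      obtain ⟨σ, h1, h2⟩ := h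
      exact h1.symm.trans h2
    · intro x y
      rw [orb_iff]
      obtain ⟨σ, h1, -⟩ := hgen x y
      exact ⟨σ, h1, h1⟩
    · intro x y x' y' h
      rw [orb_iff] at h
      obtain ⟨σ, rfl, rfl⟩ := h
      refine ⟨σ.toEquiv, fun z => ⟨?_, ?_⟩⟩
      · symm
        rw [orb_iff]
        exact ⟨σ, rfl, rfl⟩
      · symm
        rw [orb_iff]
        exact ⟨σ, rfl, rfl⟩
  · intro x y x' y' h h1
    rw [orb_iff] at h
    obtain ⟨σ, rfl, rfl⟩ := h
    exact σ.map_rel_iff'.2 h1

/-- colouring of the parts -/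
theorem parts {V : Type} {G : SimpleGraph V} {r C : ℕ} (part : V → Fin r)
    (h : ∀ i, (G.induce {v | part v = i}).Colorable C) : G.Colorable (C * r) := by
  let c := fun i => (h i).some
  have hc : ∀ (v : V) (i : Fin r) (hi : part v = i), c (part v) ⟨v, rfl⟩ = c i ⟨v, hi⟩ := by
    intro v i hi
    subst hi
    rfl
  let col : G.Coloring (Fin C × Fin r) :=
    SimpleGraph.Coloring.mk (fun v => (c (part v) ⟨v, rfl⟩, part v)) (by
      intro v w hvw heq
      rw [Prod.mk.injEq] at heq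
      obtain ⟨h1, h2⟩ := heq
      rw [hc v (part w) h2] at h1
      refine (c (part w)).valid ?_ h1
      rw [SimpleGraph.comap_adj]
      exact hvw)
  have h4 := col.colorable
  rwa [Fintype.card_prod, Fintype.card_fin, Fintype.card_fin] at h4

/-- the theorem for schemes on the parts -/
theorem gs_parts {m : ℕ} (F : SimpleGraph (Fin m)) (hF : F.IsAcyclic) :
    ∃ C : ℕ, ∀ (V : Type) [Finite V] (G : SimpleGraph V) (r : ℕ) (part : V → Fin r),
      (∀ i : Fin r,
        (∃ (I : Type) (cl : {v : V // part v = i} → {v : V // part v = i} → I), CommScheme cl ∧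
          ∀ x y x' y', cl x y = cl x' y' → G.Adj x y → G.Adj x' y') ∨
        (∀ x y : {v : V | part v = i}, ∃ σ : G.induce {v : V | part v = i} ≃g
          G.induce {v : V | part v = i}, σ x = y ∧ σ y = x)) →
      G.CliqueFree 4 → ¬ F.IsIndContained G → G.Colorable (C * r) := by
  obtain ⟨C₁, hC₁⟩ := gs_comm F hF
  obtain ⟨C₂, hC₂⟩ := gs_gen F hF
  refine ⟨max C₁ C₂, ?_⟩
  intro V _ G r part h hK hind
  apply parts part
  intro i
  have hKi : (G.induce {v | part v = i}).CliqueFree 4 :=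
    SimpleGraph.CliqueFree.comap ⟨(SimpleGraph.Embedding.induce {v | part v = i}).toCopy⟩ hK
  have hemp : IsEmpty (F ↪g G.induce {v | part v = i}) :=
    ⟨fun f => hind ⟨f.trans (SimpleGraph.Embedding.induce {v | part v = i})⟩⟩
  rcases h i with ⟨I, cl, hcl, hadj⟩ | hgen
  · exact (hC₁ {v // part v = i} I (G.induce {v | part v = i}) cl hcl
      (fun x y x' y' hxy h1 => hadj x y x' y' hxy h1) hKi hemp).mono (le_max_left _ _)
  · exact (hC₂ {v | part v = i} (G.induce {v | part v = i}) hgen hKi hemp).mono (le_max_right _ _)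

end Pool.Agent.H57.AS
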