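import Pool.Agent.H57.AS.Stage

/-!
# The spread case, and the growth of the exceptional relation
-/

set_option autoImplicit false
set_option linter.unusedSectionVars false

open Finset
open scoped Classical

namespace Pool.Agent.H57.AS

open Pool.Agent.W259.GS (Sh)

section
variable {Ω I : Type} [Fintype Ω] {cl : Ω → Ω → I}

/-- the spread case -/
theorem stage_spread {A V : Ω → Ω → Prop} {G : SimpleGraph Ω} (hS : Sc cl) (hA : Iv cl A)
    (hV : Iv cl V) (hG : ∀ x y, G.Adj x y ↔ A x y) (hK4 : G.CliqueFree 4)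
    (m : ℕ) (κ K K₁ N r : ℝ) (hκ : 0 < κ) (hκ2 : κ ≤ 1 / (8 * (m + 1))) (hr : 2 * κ ≤ r)
    (hK₁ : 0 < K₁) (hN : 1 ≤ N)
    (hcov : Cov cl A κ K N r V) (X : Ω → Ω → Prop) (hX : X = fun x y => A x y ∧ ¬ V x y) (d : ℝ)
    (hd : 0 < d) (hdd : ∀ x, (dg X x : ℝ) = d)
    (hsp : ∀ p q, (ct X V p q : ℝ) ≤ 1 / (4 * (m + 1)) * d)
    (hnear : ∀ x, d ≤ K₁ * (dg (br (nm X) κ) x : ℝ)) :
    ∃ V' : Ω → Ω → Prop, Nx cl A m V V' ∧
      Cov cl A κ (max K (2 * K₁)) (N + 1 + 8 * (m + 1) * K₁) (6 * r) V' := by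
  have hXi : Iv cl X := by rw [hX]; exact hA.and hV.not
  have hXA : ∀ x y, X x y → A x y := by
    intro x y h
    rw [hX] at h
    exact h.1
  have h0 : ∀ x, 0 < dg X x := by
    intro x
    have : (0 : ℝ) < dg X x := by rw [hdd]; exact hd
    exact_mod_cast this
  have hm1 : (0 : ℝ) < (m : ℝ) + 1 := by positivity
  have hnr := nm_mt hS hXi h0
  obtain ⟨c, hc⟩ : ∃ c : ℝ, c = 1 / (4 * (m + 1)) := ⟨_, rfl⟩
  rw [← hc] at hsp
  have hc0 : 0 < c := by rw [hc]; positivity
  have hκc : κ ≤ c / 2 := by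
    have : c / 2 = 1 / (8 * (m + 1)) := by rw [hc]; field_simp; norm_num
    rw [this]; exact hκ2
  have hB0 : ∀ x, (0 : ℝ) < dg (br (nm X) κ) x := by
    intro x
    by_contra hcon
    push Not at hcon
    have := hnear x
    nlinarith
  obtain ⟨P, hP⟩ : ∃ P : Ω → Ω → Prop, P = fun q p => c * d ≤ (ct X X q p : ℝ) := ⟨_, rfl⟩
  have hPi : Iv cl P := by rw [hP]; exact iv_ct hS hXi hXi _
  have hnmct : ∀ x y s, nm X x y ≤ s → (1 - s) * d ≤ ct X X x y := by
    intro x y s h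
    unfold nm at h
    rw [hdd] at h
    have : 1 - s ≤ (ct X X x y : ℝ) / d := by linarith
    rwa [le_div_iff₀ hd] at this
  have hcovP : ∀ q, ∃ Y : Finset Ω, (Y.card : ℝ) ≤ 8 * (m + 1) * K₁ ∧
      ∀ v, P q v → ∃ y ∈ Y, nm X y v ≤ 2 * κ := by
    intro q
    obtain ⟨Q, hQ⟩ : ∃ Q : Finset Ω, Q = univ.filter fun z => c / 2 * d ≤ (ct X X q z : ℝ) :=
      ⟨_, rfl⟩
    have hQc : (Q.card : ℝ) * (c / 2) ≤ d := by
      have h1 := pop_card hS hXi (c / 2 * d) q
      rw [← hQ, hdd] at h1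
      have h2 : (Q.card : ℝ) * (c / 2) * d ≤ d * d := by
        calc (Q.card : ℝ) * (c / 2) * d = Q.card * (c / 2 * d) := by ring
          _ ≤ _ := h1
          _ = _ := by ring
      exact le_of_mul_le_mul_right h2 hd
    obtain ⟨Z, -, hZc, hZ, -⟩ := sep hnr (univ.filter fun z => P q z) Q κ
      (dg (br (nm X) κ) q) hκ.le (by
      intro z hz
      rw [dg_eq hS (hnr.iv κ) q z]
      have h1 : dg (br (nm X) κ) z ≤ (Q.filter fun x => nm X z x ≤ κ).card := by
        apply card_le_card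
        intro g hg
        rw [mem_filter] at hg
        rw [mem_filter, hQ, mem_filter]
        refine ⟨⟨mem_univ _, ?_⟩, hg.2⟩
        rw [mem_filter, hP] at hz
        have h2 := ct_tri hS hXi q z g
        have h3 : (ct X X q z : ℝ) + ct X X z g ≤ ct X X q g + dg X z := by exact_mod_cast h2
        have h5 := hnmct z g κ hg.2
        have h6 := mul_le_mul_of_nonneg_right hκc hd.le
        have h7 : c * d ≤ (ct X X q z : ℝ) := hz.2
        rw [hdd] at h3
        nlinarith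
      exact_mod_cast h1)
    refine ⟨Z, ?_, fun v hv => hZ v (mem_filter.2 ⟨mem_univ _, hv⟩)⟩
    have h1 : (Z.card : ℝ) * dg (br (nm X) κ) q * (c / 2) ≤ K₁ * dg (br (nm X) κ) q :=
      ((mul_le_mul_of_nonneg_right hZc (by positivity)).trans hQc).trans (hnear q)
    have h2 : (Z.card : ℝ) * (c / 2) * dg (br (nm X) κ) q ≤ K₁ * dg (br (nm X) κ) q := by linarith
    have h3 := le_of_mul_le_mul_right h2 (hB0 q)
    have h4 : (Z.card : ℝ) * (c / 2) * (8 * (m + 1)) ≤ K₁ * (8 * (m + 1)) :=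
      mul_le_mul_of_nonneg_right h3 (by positivity)
    have h5 : (Z.card : ℝ) * (c / 2) * (8 * (m + 1)) = Z.card := by
      rw [hc]; field_simp; ring
    linarith
  obtain ⟨𝒲, hS1, hS2, hS3⟩ := hcov
  have hK8 : 0 < 8 * ((m : ℝ) + 1) * K₁ := by positivity
  refine ⟨fun x y => V x y ∨ P x y, ⟨hV.or hPi, fun x y h => Or.inl h,
    fun p => univ.filter fun b => X p b, ?_, ?_, ?_⟩, ?_⟩
  · intro p
    rw [← card_pos]
    exact h0 p
  · intro p b hb
    have := (mem_filter.1 hb).2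
    rw [hX] at this
    exact this
  · intro p q hpq
    push Not at hpq
    have h2 := hpq.2
    rw [hP] at h2
    push Not at h2
    have h3 : ((univ.filter fun b => X p b).filter fun b => A q b ∨ V q b) ⊆
        (univ.filter fun b => X p b ∧ X b q) ∪ (univ.filter fun b => X p b ∧ V b q) := by
      intro b hb
      rw [mem_filter, mem_filter] at hb
      rw [mem_union, mem_filter, mem_filter]
      by_cases h4 : V q b
      · right; exact ⟨mem_univ _, hb.1.2, (hV.comm hS _ _).1 h4⟩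
      · left
        refine ⟨mem_univ _, hb.1.2, ?_⟩
        apply (hXi.comm hS _ _).1
        rw [hX]
        exact ⟨hb.2.resolve_right h4, h4⟩
    have h4 := (card_le_card h3).trans (card_union_le _ _)
    have h5 : ((((univ.filter fun b => X p b).filter fun b => A q b ∨ V q b).card : ℕ) : ℝ) ≤
        ct X X p q + ct X V p q := by
      unfold ct
      exact_mod_cast h4
    have h6 : ((m : ℝ) + 1) * ((((univ.filter fun b => X p b).filter fun b =>
        A q b ∨ V q b).card : ℕ) : ℝ) < ((univ.filter fun b => X p b).card : ℝ) := by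
      have h7 : ((m : ℝ) + 1) * ((((univ.filter fun b => X p b).filter fun b =>
          A q b ∨ V q b).card : ℕ) : ℝ) ≤ ((m : ℝ) + 1) * (2 * (c * d)) := by
        apply mul_le_mul_of_nonneg_left _ hm1.le
        have := hsp p q
        rw [ct_symm hS hXi hXi] at h2
        linarith
      have h8 : ((m : ℝ) + 1) * (2 * (c * d)) = d / 2 := by
        rw [hc]; field_simp; ring
      have h9 : ((univ.filter fun b => X p b).card : ℝ) = d := hdd p
      linarith
    exact_mod_cast h6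
  · refine ⟨𝒲 ∪ {P}, ?_, ?_, ?_⟩
    · have h1 := card_union_le 𝒲 {P}
      rw [card_singleton] at h1
      have h2 : (((𝒲 ∪ {P}).card : ℕ) : ℝ) ≤ 𝒲.card + 1 := by
        exact_mod_cast h1
      linarith
    · intro W hW
      rw [mem_union, mem_singleton] at hW
      rcases hW with hW | hW
      · exact (hS2 W hW).mono (le_max_left _ _) (by linarith) (by linarith)
      · subst hW
        refine ⟨hPi, nm X, ⟨hnr, nm_sepa hS hA hXi hG hK4 hXA h0, ?_⟩, ?_⟩
        · intro x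
          have h1 := pop_card hS hXi (3 / 4 * d) x
          rw [hdd] at h1
          have h3 : (dg (br (nm X) (1 / 4)) x : ℝ) ≤
              ((univ.filter fun y => 3 / 4 * d ≤ (ct X X x y : ℝ)).card : ℝ) := by
            have : dg (br (nm X) (1 / 4)) x ≤
                (univ.filter fun y => 3 / 4 * d ≤ (ct X X x y : ℝ)).card := by
              apply card_le_card
              intro y hy
              rw [mem_filter] at hy ⊢
              refine ⟨mem_univ _, ?_⟩
              have := hnmct x y (1 / 4) hy.2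
              linarith
            exact_mod_cast this
          have h4 : ((univ.filter fun y => 3 / 4 * d ≤ (ct X X x y : ℝ)).card : ℝ) * (3 / 4) * d ≤
              d * d := by
            calc _ = ((univ.filter fun y => 3 / 4 * d ≤ (ct X X x y : ℝ)).card : ℝ) *
                  (3 / 4 * d) := by ring
              _ ≤ _ := h1
              _ = _ := by ring
          have h5 := le_of_mul_le_mul_right h4 hd
          have h6 : (dg (br (nm X) (1 / 4)) x : ℝ) ≤ 2 * d := by linarith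
          calc _ ≤ 2 * d := h6
            _ ≤ 2 * (K₁ * dg (br (nm X) κ) x) := by
              have := hnear x
              linarith
            _ = 2 * K₁ * dg (br (nm X) κ) x := by ring
            _ ≤ _ := mul_le_mul_of_nonneg_right (le_max_right _ _) (hB0 x).le
        · intro q
          obtain ⟨Y, h1, h2⟩ := hcovP q
          refine ⟨Y, by linarith, fun v hv => ?_⟩
          obtain ⟨y, hy, h3⟩ := h2 v hv
          exact ⟨y, hy, by linarith⟩
    · intro x y h
      rcases h with h | h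
      · obtain ⟨W, hW, h1⟩ := hS3 x y h
        exact ⟨W, mem_union_left _ hW, h1⟩
      · exact ⟨P, mem_union_right _ (mem_singleton_self _), h⟩

end

/-- standing assumptions -/
structure Hy {Ω I : Type} [Fintype Ω] (m : ℕ) (par : ℕ → ℕ) (N₀ : ℕ)
    (T : SimpleGraph (Fin (m + 1))) (G : SimpleGraph Ω) (cl : Ω → Ω → I)
    (A : Ω → Ω → Prop) : Prop where
  sc : Sc cl
  iv : Iv cl A
  adj : ∀ x y, G.Adj x y ↔ A x y
  k4 : G.CliqueFree 4
  sh : ∀ Y : Finset Ω, Sh G Y Set.univ → Y.card < N₀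
  no : ¬ Tr A par m fun x y => x = y
  noT : ∀ f : Fin (m + 1) → Ω, Function.Injective f → ¬ ∀ a b, T.Adj a b ↔ G.Adj (f a) (f b)
  ne : Nonempty Ω

/-- one stage -/
theorem stage (m : ℕ) (par : ℕ → ℕ) (N₀ : ℕ) (T : SimpleGraph (Fin (m + 1))) (hT : T.IsTree)
    (κ : ℝ) (hκ : 0 < κ) (hκ1 : κ ≤ 1) (hκ2 : κ ≤ 1 / (8 * (m + 1))) (N K r : ℝ) (hN : 1 ≤ N)
    (hr : 2 * κ ≤ r) :
    ∃ N' K' : ℝ, 1 ≤ N' ∧ ∀ (Ω I : Type) [Fintype Ω] (G : SimpleGraph Ω) (cl : Ω → Ω → I)
      (A : Ω → Ω → Prop), Hy m par N₀ T G cl A → ∀ V : Ω → Ω → Prop, Iv cl V →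
      Cov cl A κ K N r V → (∀ x y, A x y → V x y) ∨
      ∃ V' : Ω → Ω → Prop, Nx cl A m V V' ∧ Cov cl A κ K' N' (6 * r) V' := by
  obtain ⟨η, K₁, hη, hK₁, hnear⟩ := near m N₀ T hT κ hκ hκ1
  have hm1 : (0 : ℝ) < (m : ℝ) + 1 := by positivity
  have hN0 : 0 < N := by linarith
  obtain ⟨η₀, hη₀⟩ : ∃ η₀ : ℝ, η₀ = min η (1 / (4 * (m + 1))) / N ^ 2 := ⟨_, rfl⟩
  have hη₀0 : 0 < η₀ := by
    rw [hη₀]
    exact div_pos (lt_min hη (by positivity)) (by positivity)
  have hNη : N * (N * η₀) = min η (1 / (4 * (m + 1))) := by rw [hη₀]; field_simp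
  obtain ⟨N1, hN1⟩ : ∃ N1 : ℝ, N1 = 2 * N + 1 + 2 * N ^ 3 / (η₀ / (4 * (m + 1))) +
    (1 / (η₀ / (4 * (m + 1)))) ^ 2 := ⟨_, rfl⟩
  have hN1N : N ≤ N1 := by
    rw [hN1]
    have : 0 ≤ 2 * N ^ 3 / (η₀ / (4 * (m + 1))) := by positivity
    have : 0 ≤ (1 / (η₀ / (4 * (m + 1)))) ^ 2 := by positivity
    linarith
  refine ⟨max N1 (N + 1 + 8 * (m + 1) * K₁), max K (2 * K₁), le_max_of_le_left (hN.trans hN1N), ?_⟩
  intro Ω I _ G cl A hA V hV hcov
  by_cases hAV : ∀ x y, A x y → V x y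
  · exact Or.inl hAV
  right
  push Not at hAV
  obtain ⟨a₀, b₀, hab1, hab2⟩ := hAV
  obtain ⟨X, hX⟩ : ∃ X : Ω → Ω → Prop, X = fun x y => A x y ∧ ¬ V x y := ⟨_, rfl⟩
  have hXi : Iv cl X := by rw [hX]; exact hA.iv.and hV.not
  have h0 : ∀ x, 0 < dg X x := by
    intro x
    rw [dg_eq hA.sc hXi x a₀]
    apply card_pos.2
    refine ⟨b₀, ?_⟩
    rw [mem_filter, hX]
    exact ⟨mem_univ _, hab1, hab2⟩
  obtain ⟨d, hd⟩ : ∃ d : ℝ, d = dg X a₀ := ⟨_, rfl⟩
  have hdd : ∀ x, (dg X x : ℝ) = d := by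
    intro x
    rw [hd, dg_eq hA.sc hXi x a₀]
  have hd0 : 0 < d := by rw [hd]; exact_mod_cast h0 a₀
  obtain ⟨𝒲, hW1, hW2, hW3⟩ := hcov
  by_cases hconc : ∃ ν : Ω → Ω → ℝ, St cl A κ K ν ∧ ∃ p₁ u₁ : Ω,
      η₀ * d ≤ (ct X (br ν r) p₁ u₁ : ℝ)
  · obtain ⟨ν, hν, p₁, u₁, hu⟩ := hconc
    obtain ⟨V', hV', hcov'⟩ := stage_conc hA.sc hA.iv hV m κ K N r η₀ hN hη₀0 (by linarith) 𝒲
      hW1 hW2 hW3 X hX d hd0 hdd ν hν p₁ u₁ hu
    refine ⟨V', hV', hcov'.mono (le_max_left _ _) ?_ le_rfl (fun _ _ h => h)⟩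
    rw [← hN1]
    exact le_max_left _ _
  · push Not at hconc
    have hsp : ∀ p q, (ct X V p q : ℝ) ≤ N * (N * η₀) * d := by
      intro p q
      have h1 : ∀ W ∈ 𝒲, (ct X W p q : ℝ) ≤ N * η₀ * d := by
        intro W hW
        obtain ⟨hWi, ν, hν, hY⟩ := hW2 W hW
        obtain ⟨Y, hY1, hY2⟩ := hY q
        have h2 : ct X W p q ≤ ∑ y ∈ Y, ct X (br ν r) p y := by
          have h3 : (univ.filter fun z => X p z ∧ W z q) ⊆
              Y.biUnion fun y => univ.filter fun z => X p z ∧ br ν r z y := by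
            intro z hz
            rw [mem_filter] at hz
            obtain ⟨y, hy1, hy2⟩ := hY2 z ((hWi.comm hA.sc _ _).1 hz.2.2)
            rw [mem_biUnion]
            refine ⟨y, hy1, mem_filter.2 ⟨mem_univ _, hz.2.1, ?_⟩⟩
            unfold br
            rw [hν.mt.symm]
            exact hy2
          exact (card_le_card h3).trans card_biUnion_le
        have h3 : (ct X W p q : ℝ) ≤ ∑ y ∈ Y, (ct X (br ν r) p y : ℝ) := by exact_mod_cast h2
        have h4 : ∑ y ∈ Y, (ct X (br ν r) p y : ℝ) ≤ ∑ y ∈ Y, η₀ * d :=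
          sum_le_sum fun y _ => (hconc ν hν p y).le
        rw [sum_const, nsmul_eq_mul] at h4
        have h5 : (Y.card : ℝ) * (η₀ * d) ≤ N * (η₀ * d) :=
          mul_le_mul_of_nonneg_right hY1 (by positivity)
        linarith
      have h2 : ct X V p q ≤ ∑ W ∈ 𝒲, ct X W p q := by
        have h3 : (univ.filter fun z => X p z ∧ V z q) ⊆
            𝒲.biUnion fun W => univ.filter fun z => X p z ∧ W z q := by
          intro z hz
          rw [mem_filter] at hz
          obtain ⟨W, hW4, hW5⟩ := hW3 _ _ hz.2.2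
          rw [mem_biUnion]
          exact ⟨W, hW4, mem_filter.2 ⟨mem_univ _, hz.2.1, hW5⟩⟩
        exact (card_le_card h3).trans card_biUnion_le
      have h3 : (ct X V p q : ℝ) ≤ ∑ W ∈ 𝒲, (ct X W p q : ℝ) := by exact_mod_cast h2
      have h4 := sum_le_sum h1
      rw [sum_const, nsmul_eq_mul] at h4
      have h5 : (𝒲.card : ℝ) * (N * η₀ * d) ≤ N * (N * η₀ * d) :=
        mul_le_mul_of_nonneg_right hW1 (by positivity)
      linarith
    rw [hNη] at hsp
    have hnr := hnear Ω I cl G A X hA.sc hA.iv hA.adj hA.k4 hA.sh hA.noT hXi (by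
      intro x y h
      rw [hX] at h
      exact h.1) h0 (by
      intro p q
      have h5 : ct X (fun x y => A x y ∧ ¬ X x y) p q ≤ ct X V p q := by
        apply ct_mono (fun _ h => h)
        intro z hz
        have h6 := hz.2
        rw [hX] at h6
        by_contra h7
        exact h6 ⟨hz.1, h7⟩
      have h6 : (ct X (fun x y => A x y ∧ ¬ X x y) p q : ℝ) ≤ ct X V p q := by exact_mod_cast h5
      rw [hdd]
      refine h6.trans ((hsp p q).trans ?_)
      exact mul_le_mul_of_nonneg_right (min_le_left _ _) hd0.le)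
    obtain ⟨V', hV', hcov'⟩ := stage_spread hA.sc hA.iv hV hA.adj hA.k4 m κ K K₁ N r hκ hκ2 hr hK₁
      hN ⟨𝒲, hW1, hW2, hW3⟩ X hX d hd0 hdd (by
        intro p q
        refine (hsp p q).trans ?_
        exact mul_le_mul_of_nonneg_right (min_le_right _ _) hd0.le) (by
        intro x
        have := hnr x
        rwa [hdd] at this)
    exact ⟨V', hV', hcov'.mono le_rfl (le_max_right _ _) le_rfl (fun _ _ h => h)⟩

/-- many stages -/
theorem grow (m : ℕ) (par : ℕ → ℕ) (hpar : ∀ i, 1 ≤ i → par i < i) (N₀ : ℕ)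
    (T : SimpleGraph (Fin (m + 1))) (hT : T.IsTree) (κ : ℝ)
    (hκ : 0 < κ) (hκ1 : κ ≤ 1) (hκ2 : κ ≤ 1 / (8 * (m + 1))) : ∀ (j : ℕ), j ≤ m →
    ∀ (N K r : ℝ), 1 ≤ N → 2 * κ ≤ r →
    ∃ N' K' : ℝ, 1 ≤ N' ∧ ∀ (Ω I : Type) [Fintype Ω] (G : SimpleGraph Ω) (cl : Ω → Ω → I)
      (A : Ω → Ω → Prop), Hy m par N₀ T G cl A → ∀ V : Ω → Ω → Prop, Iv cl V →
      Cov cl A κ K N r V → Cov cl A κ K' N' (6 ^ j * r) A ∨ Tr A par j V := by
  intro j
  induction j with
  | zero =>
    intro _ N K r hN _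
    refine ⟨N, K, hN, ?_⟩
    intro Ω I _ G cl A hA V _ _
    have := hA.ne
    exact Or.inr (tr_zero A par V)
  | succ j ih =>
    intro hj N K r hN hr
    have hr0 : 0 < r := by linarith
    obtain ⟨N1, K1, hN1, h1⟩ := stage m par N₀ T hT κ hκ hκ1 hκ2 N K r hN hr
    obtain ⟨N2, K2, hN2, h2⟩ := ih (by omega) N1 K1 (6 * r) hN1 (by linarith)
    refine ⟨max N N2, max K K2, le_max_of_le_left hN, ?_⟩
    intro Ω I _ G cl A hA V hV hcov
    rcases h1 Ω I G cl A hA V hV hcov with h3 | ⟨V', hV', hcov'⟩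
    · left
      refine hcov.mono (le_max_left _ _) (le_max_left _ _) ?_ h3
      have : (1 : ℝ) ≤ 6 ^ (j + 1) := one_le_pow₀ (by norm_num)
      nlinarith
    · rcases h2 Ω I G cl A hA V' hV'.1 hcov' with h4 | h4
      · left
        refine h4.mono (le_max_right _ _) (le_max_right _ _) ?_ (fun _ _ h => h)
        rw [pow_succ]
        apply le_of_eq
        ring
      · right
        obtain ⟨hV'i, hVV, X', hX'1, hX'2, hX'3⟩ := hV'
        exact tr_step par hpar m j hj V V' X' hX'1 hX'2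
          (fun x y h => (hV'i.comm hA.sc x y).1 h) hVV hX'3 h4

/-- the adjacency is covered by boundedly many thin relations -/
theorem covered (m : ℕ) (par : ℕ → ℕ) (hpar : ∀ i, 1 ≤ i → par i < i) (N₀ : ℕ)
    (T : SimpleGraph (Fin (m + 1))) (hT : T.IsTree) :
    ∃ κ N K : ℝ, 0 < κ ∧ κ ≤ 1 / 64 ∧ 1 ≤ N ∧ ∀ (Ω I : Type) [Fintype Ω] (G : SimpleGraph Ω)
      (cl : Ω → Ω → I) (A : Ω → Ω → Prop),
      Hy m par N₀ T G cl A → Cov cl A κ K N (1 / 8) A := by
  have h4 : (1 : ℝ) ≤ 6 ^ m := one_le_pow₀ (by norm_num)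
  have hm4 : (m : ℝ) + 1 ≤ 6 ^ m := by
    have : m + 1 ≤ 6 ^ m := by
      clear hpar T hT h4 par
      induction m with
      | zero => simp
      | succ n ih =>
        rw [pow_succ]
        omega
    exact_mod_cast this
  obtain ⟨κ, hκ⟩ : ∃ κ : ℝ, κ = 1 / (64 * 6 ^ m) := ⟨_, rfl⟩
  have hκ0 : 0 < κ := by rw [hκ]; positivity
  have hκ64 : κ ≤ 1 / 64 := by
    rw [hκ]
    apply one_div_le_one_div_of_le (by norm_num)
    linarith
  have hκ2 : κ ≤ 1 / (8 * (m + 1)) := by
    rw [hκ]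
    apply one_div_le_one_div_of_le (by positivity)
    linarith
  obtain ⟨N', K', hN', h1⟩ := grow m par hpar N₀ T hT κ hκ0 (hκ64.trans (by norm_num)) hκ2 m le_rfl
    1 1 (2 * κ) le_rfl le_rfl
  refine ⟨κ, N', K', hκ0, hκ64, hN', ?_⟩
  intro Ω I _ G cl A hA
  have hcov : Cov cl A κ 1 1 (2 * κ) fun x y => x = y := by
    refine ⟨{fun x y => x = y}, by simp, ?_, ?_⟩
    · intro W hW
      rw [mem_singleton] at hW
      subst hW
      refine ⟨iv_eq hA.sc, tn, ⟨tn_mt hA.sc, ?_, ?_⟩, ?_⟩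
      · intro x y hxy
        have h2 : x ≠ y := ((hA.adj x y).2 hxy).ne
        unfold tn
        rw [if_neg h2]
        norm_num
      · intro x
        rw [one_mul]
        have h2 : dg (br tn (1 / 4)) x ≤ dg (br tn κ) x := by
          apply card_le_card
          intro g hg
          rw [mem_filter] at hg ⊢
          refine ⟨mem_univ _, ?_⟩
          have h3 := hg.2
          unfold br tn at h3 ⊢
          by_cases hg1 : x = g
          · rw [if_pos hg1]; exact hκ0.le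
          · rw [if_neg hg1] at h3; norm_num at h3
        exact_mod_cast h2
      · intro q
        refine ⟨{q}, by simp, ?_⟩
        intro v hv
        refine ⟨q, mem_singleton_self _, ?_⟩
        subst hv
        rw [(tn_mt hA.sc).zero]
        linarith
    · intro x y h
      exact ⟨_, mem_singleton_self _, h⟩
  rcases h1 Ω I G cl A hA (fun x y => x = y) (iv_eq hA.sc) hcov with h2 | h2
  · refine h2.mono le_rfl le_rfl ?_ (fun _ _ h => h)
    have h3 : (6 : ℝ) ^ m * (2 * κ) = 1 / 32 := by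
      rw [hκ]
      field_simp
      norm_num
    rw [h3]
    norm_num
  · exact absurd h2 hA.no

end Pool.Agent.H57.AS
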