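import Pool.Agent.H57.AS.Near

/-!
# Growth of trees; covered relations; the concentrated case
-/

set_option autoImplicit false
set_option linter.unusedSectionVars false

open Finset
open scoped Classical

namespace Pool.Agent.H57.AS

section
variable {Ω I : Type} [Fintype Ω] {cl : Ω → Ω → I}

/-- the tree with vertices `0, …, k` and parents `par` is embedded, no pair of vertices is in `V` -/
def Tr (A : Ω → Ω → Prop) (par : ℕ → ℕ) (k : ℕ) (V : Ω → Ω → Prop) : Prop :=
  ∃ w : ℕ → Ω, ∀ i j, i < j → j ≤ k → (par j = i → A (w i) (w j)) ∧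
    (par j ≠ i → ¬ A (w i) (w j)) ∧ ¬ V (w i) (w j)

theorem tr_zero [Nonempty Ω] (A : Ω → Ω → Prop) (par : ℕ → ℕ) (V : Ω → Ω → Prop) :
    Tr A par 0 V :=
  ⟨fun _ => Classical.arbitrary Ω, fun i j h1 h2 => by omega⟩

/-- one more vertex -/
theorem tr_step {A : Ω → Ω → Prop} (par : ℕ → ℕ) (hpar : ∀ i, 1 ≤ i → par i < i)
    (m k : ℕ) (hk : k + 1 ≤ m) (V V' : Ω → Ω → Prop) (X : Ω → Finset Ω)
    (hXne : ∀ p, (X p).Nonempty) (hXA : ∀ p, ∀ b ∈ X p, A p b ∧ ¬ V p b)
    (hinv : ∀ x y, V' x y → V' y x) (hVV : ∀ x y, V x y → V' x y)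
    (hz : ∀ p q, ¬ V' q p → (m + 1) * ((X p).filter fun b => A q b ∨ V q b).card < (X p).card)
    (h : Tr A par k V') : Tr A par (k + 1) V := by
  obtain ⟨w, hw⟩ := h
  obtain ⟨p, hp⟩ : ∃ p, p = par (k + 1) := ⟨_, rfl⟩
  have hpk : p < k + 1 := by rw [hp]; exact hpar _ (by omega)
  have hdiff : ∀ l, l ≤ k → l ≠ p → ¬ V' (w l) (w p) := by
    intro l hl hlp
    rcases lt_or_gt_of_ne hlp with h1 | h1
    · exact (hw l p h1 (by omega)).2.2
    · intro h2
      exact (hw p l h1 hl).2.2 (hinv _ _ h2)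
  obtain ⟨bad, hbad⟩ : ∃ bad : ℕ → Finset Ω, bad = fun l =>
    (X (w p)).filter fun b => A (w l) b ∨ V (w l) b := ⟨_, rfl⟩
  have hcard : (((range (k + 1)).erase p).biUnion bad).card < (X (w p)).card := by
    have h1 : (((range (k + 1)).erase p).biUnion bad).card ≤
        ∑ l ∈ (range (k + 1)).erase p, (bad l).card := card_biUnion_le
    have h2 : ∀ l ∈ (range (k + 1)).erase p, (m + 1) * (bad l).card ≤ (X (w p)).card := by
      intro l hl
      rw [mem_erase, mem_range] at hl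
      rw [hbad]
      exact (hz _ _ (hdiff l (by omega) hl.1)).le
    have h3 := sum_le_sum h2
    rw [← mul_sum, sum_const, smul_eq_mul, card_erase_of_mem (mem_range.2 hpk), card_range,
      Nat.add_sub_cancel] at h3
    have h4 : (m + 1) * (((range (k + 1)).erase p).biUnion bad).card ≤ k * (X (w p)).card :=
      (Nat.mul_le_mul_left _ h1).trans h3
    have h5 : k * (X (w p)).card < (m + 1) * (X (w p)).card := by
      apply Nat.mul_lt_mul_of_pos_right (by omega) (hXne _).card_pos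
    exact lt_of_mul_lt_mul_left (h4.trans_lt h5) (Nat.zero_le _)
  obtain ⟨b, hbX, hb⟩ : ∃ b ∈ X (w p), b ∉ ((range (k + 1)).erase p).biUnion bad := by
    by_contra hcon
    push Not at hcon
    exact absurd (card_le_card hcon) (not_le.2 hcard)
  have hbad' : ∀ l, l ≤ k → l ≠ p → ¬ A (w l) b ∧ ¬ V (w l) b := by
    intro l hl hlp
    constructor
    · intro h1
      apply hb
      rw [mem_biUnion]
      refine ⟨l, mem_erase.2 ⟨hlp, mem_range.2 (by omega)⟩, ?_⟩
      rw [hbad]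
      exact mem_filter.2 ⟨hbX, Or.inl h1⟩
    · intro h1
      apply hb
      rw [mem_biUnion]
      refine ⟨l, mem_erase.2 ⟨hlp, mem_range.2 (by omega)⟩, ?_⟩
      rw [hbad]
      exact mem_filter.2 ⟨hbX, Or.inr h1⟩
  refine ⟨Function.update w (k + 1) b, ?_⟩
  intro i j hij hj
  have hi : i ≠ k + 1 := by omega
  rw [Function.update_of_ne hi]
  by_cases hjk : j = k + 1
  · subst hjk
    rw [Function.update_self]
    by_cases hip : i = p
    · subst hip
      rw [← hp]
      exact ⟨fun _ => (hXA _ b hbX).1, fun h2 => absurd rfl h2, (hXA _ b hbX).2⟩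
    · rw [← hp]
      obtain ⟨h2, h3⟩ := hbad' i (by omega) hip
      exact ⟨fun h4 => absurd h4.symm hip, fun _ => h2, h3⟩
  · rw [Function.update_of_ne hjk]
    obtain ⟨h1, h2, h3⟩ := hw i j hij (by omega)
    exact ⟨h1, h2, fun h4 => h3 (hVV _ _ h4)⟩

theorem iv_comp {P Q : Ω → Ω → Prop} (hS : Sc cl) (hP : Iv cl P) (hQ : Iv cl Q) :
    Iv cl fun x y => ∃ z, P x z ∧ Q z y := by
  intro x y x' y' h h1
  obtain ⟨z, hz1, hz2⟩ := h1
  obtain ⟨σ, hσ⟩ := hS.mv x y x' y' h
  exact ⟨σ z, hP _ _ _ _ (hσ z).1.symm hz1, hQ _ _ _ _ (hσ z).2.symm hz2⟩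

/-- metric with few separated points in balls -/
structure St (cl : Ω → Ω → I) (A : Ω → Ω → Prop) (κ K : ℝ) (ν : Ω → Ω → ℝ) : Prop where
  mt : Mt cl ν
  sepa : ∀ x y, A x y → 1 / 3 ≤ ν x y
  dbl : ∀ x, (dg (br ν (1 / 4)) x : ℝ) ≤ K * dg (br ν κ) x

theorem St.mono {A : Ω → Ω → Prop} {κ K K' : ℝ} {ν : Ω → Ω → ℝ} (h : St cl A κ K ν)
    (hK : K ≤ K') : St cl A κ K' ν :=
  ⟨h.mt, h.sepa, fun x => (h.dbl x).trans (mul_le_mul_of_nonneg_right hK (Nat.cast_nonneg _))⟩

/-- relation covered by few balls -/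
def Pc (cl : Ω → Ω → I) (A : Ω → Ω → Prop) (κ K N r : ℝ) (W : Ω → Ω → Prop) : Prop :=
  Iv cl W ∧ ∃ ν : Ω → Ω → ℝ, St cl A κ K ν ∧ ∀ q, ∃ Y : Finset Ω, (Y.card : ℝ) ≤ N ∧
    ∀ v, W q v → ∃ y ∈ Y, ν y v ≤ r

theorem Pc.mono {A : Ω → Ω → Prop} {κ K K' N N' r r' : ℝ} {W : Ω → Ω → Prop}
    (h : Pc cl A κ K N r W) (hK : K ≤ K') (hN : N ≤ N') (hr : r ≤ r') :
    Pc cl A κ K' N' r' W := by
  obtain ⟨h1, ν, h2, h3⟩ := h
  refine ⟨h1, ν, h2.mono hK, fun q => ?_⟩
  obtain ⟨Y, h4, h5⟩ := h3 q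
  refine ⟨Y, h4.trans hN, fun v hv => ?_⟩
  obtain ⟨y, hy, h6⟩ := h5 v hv
  exact ⟨y, hy, h6.trans hr⟩

/-- covered by few such relations -/
def Cov (cl : Ω → Ω → I) (A : Ω → Ω → Prop) (κ K N r : ℝ) (V : Ω → Ω → Prop) : Prop :=
  ∃ 𝒲 : Finset (Ω → Ω → Prop), (𝒲.card : ℝ) ≤ N ∧ (∀ W ∈ 𝒲, Pc cl A κ K N r W) ∧
    ∀ x y, V x y → ∃ W ∈ 𝒲, W x y

theorem Cov.mono {A : Ω → Ω → Prop} {κ K K' N N' r r' : ℝ} {V V' : Ω → Ω → Prop}
    (h : Cov cl A κ K N r V) (hK : K ≤ K') (hN : N ≤ N') (hr : r ≤ r')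
    (hV : ∀ x y, V' x y → V x y) : Cov cl A κ K' N' r' V' := by
  obtain ⟨𝒲, h1, h2, h3⟩ := h
  exact ⟨𝒲, h1.trans hN, fun W hW => (h2 W hW).mono hK hN hr, fun x y h => h3 x y (hV x y h)⟩

/-- the result of a stage -/
def Nx (cl : Ω → Ω → I) (A : Ω → Ω → Prop) (m : ℕ) (V V' : Ω → Ω → Prop) : Prop :=
  Iv cl V' ∧ (∀ x y, V x y → V' x y) ∧ ∃ X' : Ω → Finset Ω, (∀ p, (X' p).Nonempty) ∧
    (∀ p, ∀ b ∈ X' p, A p b ∧ ¬ V p b) ∧
    ∀ p q, ¬ V' q p → (m + 1) * ((X' p).filter fun b => A q b ∨ V q b).card < (X' p).card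

/-- few balls contain a positive proportion of a neighbourhood -/
theorem cov_pop {X : Ω → Ω → Prop} {ν : Ω → Ω → ℝ} (hν : Mt cl ν) (d : ℝ) (hd : 0 < d)
    (hdd : ∀ x, (dg X x : ℝ) = d) (r c : ℝ) (hr : 0 ≤ r) (hc : 0 < c) (q : Ω) :
    ∃ Z : Finset Ω, (Z.card : ℝ) ≤ 1 / c ∧
      ∀ u, c * d ≤ (ct X (br ν r) q u : ℝ) → ∃ z ∈ Z, ν z u ≤ 2 * r := by
  obtain ⟨Z, -, h1, h2, -⟩ := sep hν (univ.filter fun u => c * d ≤ (ct X (br ν r) q u : ℝ))
    (univ.filter fun x => X q x) r (c * d) hr (by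
      intro z hz
      refine (mem_filter.1 hz).2.trans ?_
      have : ct X (br ν r) q z ≤ ((univ.filter fun x => X q x).filter fun x => ν z x ≤ r).card := by
        apply card_le_card
        intro x hx
        rw [mem_filter] at hx
        rw [mem_filter, mem_filter]
        refine ⟨⟨mem_univ _, hx.2.1⟩, ?_⟩
        rw [hν.symm]
        exact hx.2.2
      exact_mod_cast this)
  refine ⟨Z, ?_, fun u hu => h2 u (mem_filter.2 ⟨mem_univ _, hu⟩)⟩
  have h3 : ((univ.filter fun x => X q x).card : ℝ) = d := hdd q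
  rw [h3] at h1
  rw [le_div_iff₀ hc]
  have h4 : (Z.card : ℝ) * c * d ≤ 1 * d := by linarith
  exact le_of_mul_le_mul_right h4 hd

/-- the concentrated case -/
theorem stage_conc {A V : Ω → Ω → Prop} (hS : Sc cl) (hA : Iv cl A) (hV : Iv cl V)
    (m : ℕ) (κ K N r η : ℝ) (hN : 1 ≤ N) (hη : 0 < η) (hr : 0 ≤ r)
    (𝒲 : Finset (Ω → Ω → Prop)) (hWN : (𝒲.card : ℝ) ≤ N)
    (hW : ∀ W ∈ 𝒲, Pc cl A κ K N r W) (hWV : ∀ x y, V x y → ∃ W ∈ 𝒲, W x y)
    (X : Ω → Ω → Prop) (hX : X = fun x y => A x y ∧ ¬ V x y) (d : ℝ) (hd : 0 < d)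
    (hdd : ∀ x, (dg X x : ℝ) = d)
    (ν : Ω → Ω → ℝ) (hν : St cl A κ K ν) (p₁ u₁ : Ω)
    (hu : η * d ≤ (ct X (br ν r) p₁ u₁ : ℝ)) :
    ∃ V' : Ω → Ω → Prop, Nx cl A m V V' ∧
      Cov cl A κ K (2 * N + 1 + 2 * N ^ 3 / (η / (4 * (m + 1))) + (1 / (η / (4 * (m + 1)))) ^ 2)
        (6 * r) V' := by
  have hXi : Iv cl X := by rw [hX]; exact hA.and hV.not
  have hm1 : (0 : ℝ) < (m : ℝ) + 1 := by positivity
  obtain ⟨c, hc⟩ : ∃ c : ℝ, c = η / (4 * (m + 1)) := ⟨_, rfl⟩
  rw [← hc]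
  have hc0 : 0 < c := by rw [hc]; positivity
  have hcη : c ≤ η := by
    rw [hc]
    apply div_le_self hη.le
    linarith
  have hN0 : 0 < N := by linarith
  obtain ⟨N', hN'⟩ : ∃ N' : ℝ, N' = 2 * N + 1 + 2 * N ^ 3 / c + (1 / c) ^ 2 := ⟨_, rfl⟩
  rw [← hN']
  have hp1 : 0 < 2 * N ^ 3 / c := by positivity
  have hp2 : 0 < (1 / c) ^ 2 := by positivity
  have hNN' : N ≤ N' := by rw [hN']; linarith
  have hB : ∀ (ν : Ω → Ω → ℝ), Mt cl ν → ∀ s, Iv cl (br ν s) := fun ν h s => h.iv s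
  -- the new relations
  obtain ⟨R, hR⟩ : ∃ R : Ω → Ω → Prop, R = fun x u => c * d ≤ (ct X (br ν r) x u : ℝ) := ⟨_, rfl⟩
  have hRi : Iv cl R := by rw [hR]; exact iv_ct hS hXi (hB ν hν.mt r) _
  obtain ⟨Va, hVa⟩ : ∃ Va : (Ω → Ω → Prop) → Ω → Ω → Prop, Va = fun W q p =>
    c / N * d ≤ (ct X W q p : ℝ) := ⟨_, rfl⟩
  have hVai : ∀ W ∈ 𝒲, Iv cl (Va W) := by
    intro W h
    rw [hVa]
    exact iv_ct hS hXi (hW W h).1 _
  obtain ⟨RR, hRR⟩ : ∃ RR : Ω → Ω → Prop, RR = fun x y => ∃ z, R x z ∧ R z y := ⟨_, rfl⟩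
  have hRRi : Iv cl RR := by rw [hRR]; exact iv_comp hS hRi hRi
  obtain ⟨V', hV'⟩ : ∃ V' : Ω → Ω → Prop, V' = fun q p => V q p ∨ (∃ W ∈ 𝒲, Va W q p) ∨ RR q p :=
    ⟨_, rfl⟩
  have hV'i : Iv cl V' := by
    rw [hV']
    intro x y x' y' h h1
    rcases h1 with h1 | ⟨W, h1, h2⟩ | h1
    · exact Or.inl (hV _ _ _ _ h h1)
    · exact Or.inr (Or.inl ⟨W, h1, hVai W h1 _ _ _ _ h h2⟩)
    · exact Or.inr (Or.inr (hRRi _ _ _ _ h h1))
  choose u hu' using fun p => occ hS p₁ u₁ p
  have huc : ∀ p, η * d ≤ (ct X (br ν r) p (u p) : ℝ) := by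
    intro p
    rw [ct_inv hS hXi (hB ν hν.mt r) (hu' p)]
    exact hu
  refine ⟨V', ⟨hV'i, fun x y h => by rw [hV']; exact Or.inl h,
    fun p => univ.filter fun b => X p b ∧ br ν r b (u p), ?_, ?_, ?_⟩, ?_⟩
  · intro p
    rw [← card_pos]
    have h1 : (0 : ℝ) < (ct X (br ν r) p (u p) : ℝ) := lt_of_lt_of_le (by positivity) (huc p)
    exact_mod_cast h1
  · intro p b hb
    have := (mem_filter.1 hb).2.1
    rw [hX] at this
    exact this
  · intro p q hpq
    rw [hV'] at hpq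
    push Not at hpq
    obtain ⟨hz0, hz1, hz2⟩ := hpq
    have h1 : (ct X V p q : ℝ) ≤ c * d := by
      have h2 : ct X V p q ≤ ∑ W ∈ 𝒲, ct X W p q := by
        have h3 : (univ.filter fun z => X p z ∧ V z q) ⊆
            𝒲.biUnion fun W => univ.filter fun z => X p z ∧ W z q := by
          intro z hz
          rw [mem_filter] at hz
          obtain ⟨W, hW1, hW2⟩ := hWV _ _ hz.2.2
          rw [mem_biUnion]
          exact ⟨W, hW1, mem_filter.2 ⟨mem_univ _, hz.2.1, hW2⟩⟩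
        exact (card_le_card h3).trans card_biUnion_le
      have h3 : (ct X V p q : ℝ) ≤ ∑ W ∈ 𝒲, (ct X W p q : ℝ) := by exact_mod_cast h2
      have h4 : ∑ W ∈ 𝒲, (ct X W p q : ℝ) ≤ ∑ W ∈ 𝒲, c / N * d := by
        apply sum_le_sum
        intro W hW1
        have h5 := hz1 W hW1
        rw [hVa] at h5
        push Not at h5
        rw [ct_symm hS hXi (hW W hW1).1]
        exact h5.le
      rw [sum_const, nsmul_eq_mul] at h4
      have h5 : (𝒲.card : ℝ) * (c / N * d) ≤ N * (c / N * d) :=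
        mul_le_mul_of_nonneg_right hWN (by positivity)
      have h6 : N * (c / N * d) = c * d := by field_simp
      linarith
    have h2 : ((univ.filter fun b => X q b ∧ br ν r b (u p)).filter fun b => X p b).card ≤ c * d := by
      by_contra hcon
      push Not at hcon
      apply hz2
      rw [hRR]
      refine ⟨u p, ?_, ?_⟩
      · rw [hR]
        refine hcon.le.trans ?_
        have : ((univ.filter fun b => X q b ∧ br ν r b (u p)).filter fun b => X p b).card ≤
            ct X (br ν r) q (u p) := by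
          apply card_le_ct
          intro b hb
          rw [mem_filter, mem_filter] at hb
          exact hb.1.2
        exact_mod_cast this
      · apply (hRi.comm hS _ _).1
        rw [hR]
        refine le_trans ?_ (huc p)
        exact mul_le_mul_of_nonneg_right hcη hd.le
    have h3 : ((univ.filter fun b => X p b ∧ br ν r b (u p)).filter fun b => A q b ∨ V q b) ⊆
        (univ.filter fun b => X p b ∧ V b q) ∪
          ((univ.filter fun b => X q b ∧ br ν r b (u p)).filter fun b => X p b) := by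
      intro b hb
      rw [mem_filter, mem_filter] at hb
      obtain ⟨⟨-, hb1, hb2⟩, hb3⟩ := hb
      rw [mem_union, mem_filter, mem_filter, mem_filter]
      by_cases h4 : V q b
      · left; exact ⟨mem_univ _, hb1, (hV.comm hS _ _).1 h4⟩
      · right
        refine ⟨⟨mem_univ _, ?_, hb2⟩, hb1⟩
        rw [hX]
        exact ⟨hb3.resolve_right h4, h4⟩
    have h4 := (card_le_card h3).trans (card_union_le _ _)
    have h5 : ((((univ.filter fun b => X p b ∧ br ν r b (u p)).filter fun b =>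
        A q b ∨ V q b).card : ℕ) : ℝ) ≤ ct X V p q +
          (((univ.filter fun b => X q b ∧ br ν r b (u p)).filter fun b => X p b).card : ℝ) := by
      unfold ct
      exact_mod_cast h4
    have h6 : ((m : ℝ) + 1) * ((((univ.filter fun b => X p b ∧ br ν r b (u p)).filter fun b =>
        A q b ∨ V q b).card : ℕ) : ℝ) <
        ((univ.filter fun b => X p b ∧ br ν r b (u p)).card : ℝ) := by
      have h7 : ((m : ℝ) + 1) * ((((univ.filter fun b => X p b ∧ br ν r b (u p)).filter fun b =>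
        A q b ∨ V q b).card : ℕ) : ℝ) ≤ ((m : ℝ) + 1) * (2 * (c * d)) :=
        mul_le_mul_of_nonneg_left (by linarith) hm1.le
      have h8 : ((m : ℝ) + 1) * (2 * (c * d)) = η * d / 2 := by
        rw [hc]; field_simp; ring
      have h9 : 0 < η * d := by positivity
      have h10 : η * d ≤ ((univ.filter fun b => X p b ∧ br ν r b (u p)).card : ℝ) := huc p
      linarith
    exact_mod_cast h6
  · -- the cover
    refine ⟨𝒲 ∪ (𝒲.image Va ∪ {RR}), ?_, ?_, ?_⟩
    · have h1 := (card_union_le 𝒲 (𝒲.image Va ∪ {RR})).trans (Nat.add_le_add_left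
        ((card_union_le (𝒲.image Va) {RR}).trans (Nat.add_le_add_right card_image_le _)) _)
      rw [card_singleton] at h1
      have h2 : (((𝒲 ∪ (𝒲.image Va ∪ {RR})).card : ℕ) : ℝ) ≤ 𝒲.card + (𝒲.card + 1) := by
        exact_mod_cast h1
      rw [hN']
      linarith
    · intro W' hW'
      rw [mem_union, mem_union, mem_singleton] at hW'
      rcases hW' with hW' | hW' | hW'
      · exact (hW W' hW').mono le_rfl hNN' (by linarith)
      · obtain ⟨W, hW1, rfl⟩ := mem_image.1 hW'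
        refine ⟨hVai W hW1, ?_⟩
        obtain ⟨hWi, ν', hν', hY⟩ := hW W hW1
        refine ⟨ν', hν', fun q => ?_⟩
        obtain ⟨Y, hY1, hY2⟩ := hY q
        have hc' : 0 < c / (2 * N ^ 2) := by positivity
        choose Z hZ1 hZ2 using fun y => cov_pop hν'.mt d hd hdd r (c / (2 * N ^ 2)) hr hc' y
        refine ⟨Y.biUnion Z, ?_, ?_⟩
        · have h1 : (((Y.biUnion Z).card : ℕ) : ℝ) ≤ ∑ y ∈ Y, ((Z y).card : ℝ) := by
            exact_mod_cast card_biUnion_le
          have h2 : ∑ y ∈ Y, ((Z y).card : ℝ) ≤ ∑ y ∈ Y, 1 / (c / (2 * N ^ 2)) :=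
            sum_le_sum fun y _ => hZ1 y
          rw [sum_const, nsmul_eq_mul] at h2
          have h3 : (Y.card : ℝ) * (1 / (c / (2 * N ^ 2))) ≤ N * (1 / (c / (2 * N ^ 2))) :=
            mul_le_mul_of_nonneg_right hY1 (by positivity)
          have h4 : N * (1 / (c / (2 * N ^ 2))) = 2 * N ^ 3 / c := by field_simp
          rw [hN']
          linarith
        · intro p hp
          rw [hVa] at hp
          have h1 : ∃ y ∈ Y, c / (2 * N ^ 2) * d ≤ (ct X (br ν' r) p y : ℝ) := by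
            by_contra hcon
            push Not at hcon
            have h2 : ct X W p q ≤ ∑ y ∈ Y, ct X (br ν' r) p y := by
              have h3 : (univ.filter fun z => X p z ∧ W z q) ⊆
                  Y.biUnion fun y => univ.filter fun z => X p z ∧ br ν' r z y := by
                intro z hz
                rw [mem_filter] at hz
                obtain ⟨y, hy1, hy2⟩ := hY2 z ((hWi.comm hS _ _).1 hz.2.2)
                rw [mem_biUnion]
                refine ⟨y, hy1, mem_filter.2 ⟨mem_univ _, hz.2.1, ?_⟩⟩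
                unfold br
                rw [hν'.mt.symm]
                exact hy2
              exact (card_le_card h3).trans card_biUnion_le
            have h3 : (ct X W p q : ℝ) ≤ ∑ y ∈ Y, (ct X (br ν' r) p y : ℝ) := by exact_mod_cast h2
            have h4 : ∑ y ∈ Y, (ct X (br ν' r) p y : ℝ) ≤ ∑ y ∈ Y, c / (2 * N ^ 2) * d :=
              sum_le_sum fun y hy => (hcon y hy).le
            rw [sum_const, nsmul_eq_mul] at h4
            have h5 : (Y.card : ℝ) * (c / (2 * N ^ 2) * d) ≤ N * (c / (2 * N ^ 2) * d) :=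
              mul_le_mul_of_nonneg_right hY1 (by positivity)
            have h6 : N * (c / (2 * N ^ 2) * d) = c / N * d / 2 := by field_simp
            have h7 : 0 < c / N * d := by positivity
            rw [ct_symm hS hXi hWi] at h3
            have h8 : c / N * d ≤ (ct X W q p : ℝ) := hp
            linarith
          obtain ⟨y, hy1, hy2⟩ := h1
          rw [ct_symm hS hXi (hB ν' hν'.mt r)] at hy2
          obtain ⟨z, hz1, hz2⟩ := hZ2 y p hy2
          exact ⟨z, mem_biUnion.2 ⟨y, hy1, hz1⟩, by linarith⟩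
      · subst hW'
        refine ⟨hRRi, ν, hν, fun q => ?_⟩
        obtain ⟨Y, hY1, hY2⟩ := cov_pop hν.mt d hd hdd r c hr hc0 q
        choose Z hZ1 hZ2 using fun y => cov_pop hν.mt d hd hdd (3 * r) c (by positivity) hc0 y
        refine ⟨Y.biUnion Z, ?_, ?_⟩
        · have h1 : (((Y.biUnion Z).card : ℕ) : ℝ) ≤ ∑ y ∈ Y, ((Z y).card : ℝ) := by
            exact_mod_cast card_biUnion_le
          have h2 : ∑ y ∈ Y, ((Z y).card : ℝ) ≤ ∑ y ∈ Y, 1 / c :=
            sum_le_sum fun y _ => hZ1 y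
          rw [sum_const, nsmul_eq_mul] at h2
          have h3 : (Y.card : ℝ) * (1 / c) ≤ 1 / c * (1 / c) :=
            mul_le_mul_of_nonneg_right hY1 (by positivity)
          rw [hN']
          nlinarith
        · intro p hp
          rw [hRR] at hp
          obtain ⟨v, hv1, hv2⟩ := hp
          rw [hR] at hv1 hv2
          obtain ⟨y, hy1, hy2⟩ := hY2 v hv1
          have h1 : c * d ≤ (ct X (br ν (3 * r)) y p : ℝ) := by
            have h2 : c * d ≤ (ct X (br ν r) v p : ℝ) := hv2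
            rw [ct_symm hS hXi (hB ν hν.mt r)] at h2
            rw [ct_symm hS hXi (hB ν hν.mt (3 * r))]
            refine h2.trans ?_
            have h3 : ct X (br ν r) p v ≤ ct X (br ν (3 * r)) p y := by
              apply ct_mono (fun _ h => h)
              intro z hz
              unfold br at hz ⊢
              have h4 := hν.mt.tri z v y
              rw [hν.mt.symm v y] at h4
              linarith
            exact_mod_cast h3
          obtain ⟨z, hz1, hz2⟩ := hZ2 y p h1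
          exact ⟨z, mem_biUnion.2 ⟨y, hy1, hz1⟩, by linarith⟩
    · intro x y hxy
      rw [hV'] at hxy
      rcases hxy with h | ⟨W, hW1, hW2⟩ | h
      · obtain ⟨W, hW1, hW2⟩ := hWV x y h
        exact ⟨W, mem_union_left _ hW1, hW2⟩
      · exact ⟨Va W, mem_union_right _ (mem_union_left _ (mem_image_of_mem _ hW1)), hW2⟩
      · exact ⟨RR, mem_union_right _ (mem_union_right _ (mem_singleton_self _)), h⟩

end

end Pool.Agent.H57.AS
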